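import Pool.Agent.Work.MP_8d2cba_co_h18.Interface
import Pool.Agent.Work.MP_8d2cba_co_helper59.Count

/-! MP_8d2cba_co, block INEQ. -/

set_option autoImplicit false
set_option linter.unusedSectionVars false

namespace Pool.OM.H70

open Finset Pool.OM

section defs
variable {G : Type} [Group G] [Fintype G] [DecidableEq G]

/-- all conditions on a path except that the inner vertices are in `V` -/
def okP (C : Finset G) (s t : G) {m : ℕ} (x : Fin m → G) : Prop :=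
  Function.Injective x ∧ (pcols s (List.ofFn x) t).Nodup ∧ ∀ c ∈ pcols s (List.ofFn x) t, c ∈ C

instance (C : Finset G) (s t : G) {m : ℕ} (x : Fin m → G) : Decidable (okP C s t x) := by
  unfold okP
  infer_instance

def PM (V C : Finset G) (s t : G) (m : ℕ) : Finset (Fin m → G) :=
  univ.filter fun x => Function.Injective x ∧ (∀ j, x j ∈ V) ∧
    (pcols s (List.ofFn x) t).Nodup ∧ ∀ c ∈ pcols s (List.ofFn x) t, c ∈ C

lemma mem_PM {V C : Finset G} {s t : G} {m : ℕ} {x : Fin m → G} :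
    x ∈ PM V C s t m ↔ (∀ j, x j ∈ V) ∧ okP C s t x := by
  unfold PM okP
  simp only [mem_filter, mem_univ, true_and]
  tauto

def val (a : ℝ) (yV yC : G → ℝ) (s t : G) {m : ℕ} (x : Fin m → G) : ℝ :=
  a + ∑ j, yV (x j) + ((pcols s (List.ofFn x) t).map yC).sum

/-- the tuple `(x1, x2, r)` -/
def c2 (x1 x2 : G) {m : ℕ} (r : Fin m → G) : Fin (m + 2) → G :=
  Fin.cons x1 (Fin.cons x2 r)

lemma c2_zero (x1 x2 : G) {m : ℕ} (r : Fin m → G) : c2 x1 x2 r 0 = x1 := rfl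

lemma c2_one (x1 x2 : G) {m : ℕ} (r : Fin m → G) : c2 x1 x2 r 1 = x2 := rfl

lemma c2_inj {x1 x2 y1 y2 : G} {m : ℕ} {r r' : Fin m → G} (h : c2 x1 x2 r = c2 y1 y2 r') :
    x1 = y1 ∧ x2 = y2 ∧ r = r' := by
  unfold c2 at h
  rw [Fin.cons_inj, Fin.cons_inj] at h
  exact h

lemma ofFn_c2 (x1 x2 : G) {m : ℕ} (r : Fin m → G) :
    List.ofFn (c2 x1 x2 r) = x1 :: x2 :: List.ofFn r := by
  rw [List.ofFn_succ, List.ofFn_succ]
  rfl

def WW (yV yC : G → ℝ) (t x2 : G) {m : ℕ} (r : Fin m → G) : ℝ :=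
  yV x2 + ∑ j, yV (r j) + ((pcols x2 (List.ofFn r) t).map yC).sum

lemma val_c2 (a : ℝ) (yV yC : G → ℝ) (s t x1 x2 : G) {m : ℕ} (r : Fin m → G) :
    val a yV yC s t (c2 x1 x2 r) =
      a + yV x1 + yC (s⁻¹ * x1) + yC (x1⁻¹ * x2) + WW yV yC t x2 r := by
  unfold val WW
  rw [ofFn_c2, Fin.sum_univ_succ, Fin.sum_univ_succ]
  simp only [pcols, Multiset.map_cons, Multiset.sum_cons]
  have h1 : ∀ j : Fin m, c2 x1 x2 r j.succ.succ = r j := fun j => rfl
  have h2 : c2 x1 x2 r 0 = x1 := rfl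
  have h3 : c2 x1 x2 r (Fin.succ 0) = x2 := rfl
  simp only [h1, h2, h3]
  ring

lemma cols_c2 {C : Finset G} {s t x1 x2 : G} {m : ℕ} {r : Fin m → G}
    (h : okP C s t (c2 x1 x2 r)) : s⁻¹ * x1 ∈ C ∧ x1⁻¹ * x2 ∈ C := by
  have h3 := h.2.2
  rw [ofFn_c2] at h3
  simp only [pcols, Multiset.mem_cons] at h3
  exact ⟨h3 _ (Or.inl rfl), h3 _ (Or.inr (Or.inl rfl))⟩

end defs

/-- summation along an injection -/
lemma sum_inj_le {A B E : Type*} [Fintype E] [DecidableEq B] [DecidableEq E]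
    (S : Finset A) (T : Finset B) (g : A → B) (e : A → E) (hg : ∀ a ∈ S, g a ∈ T)
    (hinj : Set.InjOn (fun a => (g a, e a)) (S : Set A)) (f : B → ℝ) (hf : ∀ b ∈ T, 0 ≤ f b) :
    ∑ a ∈ S, f (g a) ≤ (Fintype.card E : ℝ) * ∑ b ∈ T, f b := by
  classical
  have h1 : ∑ a ∈ S, f (g a) = ∑ z ∈ S.image (fun a => (g a, e a)), f z.1 := by
    rw [Finset.sum_image hinj]
  rw [h1]
  have h2 : ∑ z ∈ S.image (fun a => (g a, e a)), f z.1 ≤ ∑ z ∈ T ×ˢ (univ : Finset E), f z.1 := by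
    apply Finset.sum_le_sum_of_subset_of_nonneg
    · intro z hz
      rw [mem_image] at hz
      obtain ⟨a, ha, rfl⟩ := hz
      simp only [mem_product, mem_univ, and_true]
      exact hg a ha
    · intro z hz _
      rw [mem_product] at hz
      exact hf _ hz.1
  refine le_trans h2 (le_of_eq ?_)
  rw [Finset.sum_product, Finset.mul_sum]
  apply Finset.sum_congr rfl
  intro b _
  simp

section perindex
variable {G : Type} [Group G] [Fintype G] [DecidableEq G]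

/-- the quadruple of paths -/
def Quad (V C : Finset G) (s t : G) (m : ℕ) (τ : G × G × G) (w : G × (Fin m → G)) : Prop :=
  c2 (w.1 * τ.1⁻¹) w.1 w.2 ∈ PM V C s t (m + 2) ∧
  c2 (w.1 * τ.2.1⁻¹) w.1 w.2 ∈ PM V C s t (m + 2) ∧
  c2 (w.1 * τ.1⁻¹) (w.1 * τ.1⁻¹ * τ.2.2) w.2 ∈ PM V C s t (m + 2) ∧
  c2 (w.1 * τ.2.1⁻¹) (w.1 * τ.1⁻¹ * τ.2.2) w.2 ∈ PM V C s t (m + 2)

instance (V C : Finset G) (s t : G) (m : ℕ) (τ : G × G × G) (w : G × (Fin m → G)) :
    Decidable (Quad V C s t m τ w) := by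
  unfold Quad
  infer_instance

def Dl (Y : G → ℝ) (τ : G × G × G) : ℝ :=
  Y τ.1 - Y τ.2.1 - Y τ.2.2 + Y (τ.2.1 * τ.1⁻¹ * τ.2.2)

lemma card_weight {A B : Type*} [Fintype B] (S : Finset A) (P : A → B → Prop)
    [∀ a b, Decidable (P a b)] (f : A → ℝ) :
    ∑ a ∈ S, f a * ((univ.filter fun b => P a b).card : ℝ) =
      ∑ z ∈ (S ×ˢ (univ : Finset B)).filter (fun z => P z.1 z.2), f z.1 := by
  rw [Finset.sum_filter, Finset.sum_product]
  apply Finset.sum_congr rfl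
  intro a _
  rw [← Finset.sum_filter]
  simp [mul_comm]

lemma A_i (V C : Finset G) (a : ℝ) (yV yC : G → ℝ) (s t : G) (m : ℕ)
    (good : Finset (G × G × G)) :
    ∑ τ ∈ good, |Dl yC τ| * ((univ.filter fun w => Quad V C s t m τ w).card : ℝ) ≤
      4 * (Fintype.card G : ℝ) ^ 2 * ∑ x ∈ PM V C s t (m + 2), |val a yV yC s t x| := by
  rw [card_weight good (fun τ w => Quad V C s t m τ w) (fun τ => |Dl yC τ|)]
  set S := (good ×ˢ (univ : Finset (G × (Fin m → G)))).filter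
    (fun z => Quad V C s t m z.1 z.2) with hS
  set f : (Fin (m + 2) → G) → ℝ := fun x => |val a yV yC s t x| with hf
  have hpt : ∀ z ∈ S, |Dl yC z.1| ≤ f (c2 (z.2.1 * z.1.1⁻¹) z.2.1 z.2.2) +
      f (c2 (z.2.1 * z.1.2.1⁻¹) z.2.1 z.2.2) +
      f (c2 (z.2.1 * z.1.1⁻¹) (z.2.1 * z.1.1⁻¹ * z.1.2.2) z.2.2) +
      f (c2 (z.2.1 * z.1.2.1⁻¹) (z.2.1 * z.1.1⁻¹ * z.1.2.2) z.2.2) := by
    rintro ⟨⟨p, q, r'⟩, x, r⟩ _
    simp only [hf]
    have e : Dl yC (p, q, r') = val a yV yC s t (c2 (x * p⁻¹) x r) -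
        val a yV yC s t (c2 (x * q⁻¹) x r) - val a yV yC s t (c2 (x * p⁻¹) (x * p⁻¹ * r') r) +
        val a yV yC s t (c2 (x * q⁻¹) (x * p⁻¹ * r') r) := by
      rw [val_c2, val_c2, val_c2, val_c2]
      have e1 : (x * p⁻¹)⁻¹ * x = p := by group
      have e2 : (x * q⁻¹)⁻¹ * x = q := by group
      have e3 : (x * p⁻¹)⁻¹ * (x * p⁻¹ * r') = r' := by group
      have e4 : (x * q⁻¹)⁻¹ * (x * p⁻¹ * r') = q * p⁻¹ * r' := by group
      rw [e1, e2, e3, e4]
      unfold Dl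
      ring
    rw [e]
    refine le_trans (abs_add_le _ _) (add_le_add ?_ (le_refl _))
    refine le_trans (abs_sub _ _) (add_le_add ?_ (le_refl _))
    exact abs_sub _ _
  refine le_trans (Finset.sum_le_sum hpt) ?_
  rw [Finset.sum_add_distrib, Finset.sum_add_distrib, Finset.sum_add_distrib]
  have hE : (Fintype.card (G × G) : ℝ) = (Fintype.card G : ℝ) ^ 2 := by
    rw [Fintype.card_prod]
    push_cast
    ring
  have hnn : ∀ b ∈ PM V C s t (m + 2), 0 ≤ f b := fun b _ => abs_nonneg _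
  have hmem : ∀ z ∈ S, Quad V C s t m z.1 z.2 := fun z hz => (mem_filter.mp hz).2
  have k1 := sum_inj_le S (PM V C s t (m + 2)) (fun z => c2 (z.2.1 * z.1.1⁻¹) z.2.1 z.2.2)
    (fun z => (z.1.2.1, z.1.2.2)) (fun z hz => (hmem z hz).1) (by
      rintro ⟨⟨p, q, r'⟩, x, r⟩ _ ⟨⟨p1, q1, r1'⟩, x1, r1⟩ _ h
      simp only [Prod.mk.injEq] at h
      obtain ⟨h, hq, hr⟩ := h
      obtain ⟨h1, h2, h3⟩ := c2_inj h
      subst h2 h3 hq hr
      have := mul_left_cancel h1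
      rw [inv_inj] at this
      subst this
      rfl) f hnn
  have k2 := sum_inj_le S (PM V C s t (m + 2)) (fun z => c2 (z.2.1 * z.1.2.1⁻¹) z.2.1 z.2.2)
    (fun z => (z.1.1, z.1.2.2)) (fun z hz => (hmem z hz).2.1) (by
      rintro ⟨⟨p, q, r'⟩, x, r⟩ _ ⟨⟨p1, q1, r1'⟩, x1, r1⟩ _ h
      simp only [Prod.mk.injEq] at h
      obtain ⟨h, hq, hr⟩ := h
      obtain ⟨h1, h2, h3⟩ := c2_inj h
      subst h2 h3 hq hr
      have := mul_left_cancel h1
      rw [inv_inj] at this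
      subst this
      rfl) f hnn
  have k3 := sum_inj_le S (PM V C s t (m + 2))
    (fun z => c2 (z.2.1 * z.1.1⁻¹) (z.2.1 * z.1.1⁻¹ * z.1.2.2) z.2.2)
    (fun z => (z.2.1, z.1.2.1)) (fun z hz => (hmem z hz).2.2.1) (by
      rintro ⟨⟨p, q, r'⟩, x, r⟩ _ ⟨⟨p1, q1, r1'⟩, x1, r1⟩ _ h
      simp only [Prod.mk.injEq] at h
      obtain ⟨h, hx, hq⟩ := h
      obtain ⟨h1, h2, h3⟩ := c2_inj h
      subst hx h3 hq
      have h4 := mul_left_cancel h1
      rw [inv_inj] at h4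
      subst h4
      have h5 := mul_left_cancel h2
      subst h5
      rfl) f hnn
  have k4 := sum_inj_le S (PM V C s t (m + 2))
    (fun z => c2 (z.2.1 * z.1.2.1⁻¹) (z.2.1 * z.1.1⁻¹ * z.1.2.2) z.2.2)
    (fun z => (z.2.1, z.1.1)) (fun z hz => (hmem z hz).2.2.2) (by
      rintro ⟨⟨p, q, r'⟩, x, r⟩ _ ⟨⟨p1, q1, r1'⟩, x1, r1⟩ _ h
      simp only [Prod.mk.injEq] at h
      obtain ⟨h, hx, hq⟩ := h
      obtain ⟨h1, h2, h3⟩ := c2_inj h
      subst hx h3 hq
      have h4 := mul_left_cancel h1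
      rw [inv_inj] at h4
      subst h4
      have h5 := mul_left_cancel h2
      subst h5
      rfl) f hnn
  rw [hE] at k1 k2 k3 k4
  linarith

/-- pairs of paths which differ in the first inner vertex -/
def Pair (V C : Finset G) (s t : G) (m : ℕ) (u : G × G) (w : G × (Fin m → G)) : Prop :=
  c2 u.1 w.1 w.2 ∈ PM V C s t (m + 2) ∧ c2 u.2 w.1 w.2 ∈ PM V C s t (m + 2)

instance (V C : Finset G) (s t : G) (m : ℕ) (u : G × G) (w : G × (Fin m → G)) :
    Decidable (Pair V C s t m u w) := by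
  unfold Pair
  infer_instance

lemma C_i (V C : Finset G) (a : ℝ) (yV yC : G → ℝ) (κ : ℝ) (s t : G) (m : ℕ) :
    ∑ u ∈ V ×ˢ V, |yV u.1 - yV u.2| * ((univ.filter fun w => Pair V C s t m u w).card : ℝ) ≤
      2 * (Fintype.card G : ℝ) * (∑ x ∈ PM V C s t (m + 2), |val a yV yC s t x|) +
      4 * (Fintype.card G : ℝ) ^ (m + 2) * ∑ c ∈ C, |yC c - κ| := by
  rw [card_weight (V ×ˢ V) (fun u w => Pair V C s t m u w) (fun u => |yV u.1 - yV u.2|)]
  set S := ((V ×ˢ V) ×ˢ (univ : Finset (G × (Fin m → G)))).filter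
    (fun z => Pair V C s t m z.1 z.2) with hS
  set f : (Fin (m + 2) → G) → ℝ := fun x => |val a yV yC s t x| with hf
  set g : G → ℝ := fun c => |yC c - κ| with hg
  have hpt : ∀ z ∈ S, |yV z.1.1 - yV z.1.2| ≤ f (c2 z.1.1 z.2.1 z.2.2) + f (c2 z.1.2 z.2.1 z.2.2) +
      g (s⁻¹ * z.1.1) + g (s⁻¹ * z.1.2) + g (z.1.1⁻¹ * z.2.1) + g (z.1.2⁻¹ * z.2.1) := by
    rintro ⟨⟨v, v'⟩, x, r⟩ _
    simp only [hf, hg]
    have e : yV v - yV v' = val a yV yC s t (c2 v x r) - val a yV yC s t (c2 v' x r)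
        - (yC (s⁻¹ * v) - κ) + (yC (s⁻¹ * v') - κ) - (yC (v⁻¹ * x) - κ) + (yC (v'⁻¹ * x) - κ) := by
      rw [val_c2, val_c2]
      ring
    rw [e]
    refine le_trans (abs_add_le _ _) (add_le_add ?_ (le_refl _))
    refine le_trans (abs_sub _ _) (add_le_add ?_ (le_refl _))
    refine le_trans (abs_add_le _ _) (add_le_add ?_ (le_refl _))
    refine le_trans (abs_sub _ _) (add_le_add ?_ (le_refl _))
    exact abs_sub _ _
  refine le_trans (Finset.sum_le_sum hpt) ?_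
  rw [Finset.sum_add_distrib, Finset.sum_add_distrib, Finset.sum_add_distrib,
    Finset.sum_add_distrib, Finset.sum_add_distrib]
  have hE : (Fintype.card (G × G × (Fin m → G)) : ℝ) = (Fintype.card G : ℝ) ^ (m + 2) := by
    rw [Fintype.card_prod, Fintype.card_prod, Fintype.card_fun, Fintype.card_fin]
    push_cast
    ring
  have hnn : ∀ b ∈ PM V C s t (m + 2), 0 ≤ f b := fun b _ => abs_nonneg _
  have hgn : ∀ b ∈ C, 0 ≤ g b := fun b _ => abs_nonneg _
  have hmem : ∀ z ∈ S, Pair V C s t m z.1 z.2 := fun z hz => (mem_filter.mp hz).2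
  have hok : ∀ z ∈ S, okP C s t (c2 z.1.1 z.2.1 z.2.2) ∧ okP C s t (c2 z.1.2 z.2.1 z.2.2) :=
    fun z hz => ⟨(mem_PM.mp (hmem z hz).1).2, (mem_PM.mp (hmem z hz).2).2⟩
  have k1 := sum_inj_le S (PM V C s t (m + 2)) (fun z => c2 z.1.1 z.2.1 z.2.2)
    (fun z => z.1.2) (fun z hz => (hmem z hz).1) (by
      rintro ⟨⟨v, v'⟩, x, r⟩ _ ⟨⟨v1, v1'⟩, x1, r1⟩ _ h
      simp only [Prod.mk.injEq] at h
      obtain ⟨h, hq⟩ := h
      obtain ⟨h1, h2, h3⟩ := c2_inj h
      subst h1 h2 h3 hq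
      rfl) f hnn
  have k2 := sum_inj_le S (PM V C s t (m + 2)) (fun z => c2 z.1.2 z.2.1 z.2.2)
    (fun z => z.1.1) (fun z hz => (hmem z hz).2) (by
      rintro ⟨⟨v, v'⟩, x, r⟩ _ ⟨⟨v1, v1'⟩, x1, r1⟩ _ h
      simp only [Prod.mk.injEq] at h
      obtain ⟨h, hq⟩ := h
      obtain ⟨h1, h2, h3⟩ := c2_inj h
      subst h1 h2 h3 hq
      rfl) f hnn
  have k3 := sum_inj_le S C (fun z => s⁻¹ * z.1.1)
    (fun z => (z.1.2, z.2.1, z.2.2)) (fun z hz => (cols_c2 (hok z hz).1).1) (by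
      rintro ⟨⟨v, v'⟩, x, r⟩ _ ⟨⟨v1, v1'⟩, x1, r1⟩ _ h
      simp only [Prod.mk.injEq] at h
      obtain ⟨h, hq, h2, h3⟩ := h
      have h1 := mul_left_cancel h
      subst h1 h2 h3 hq
      rfl) g hgn
  have k4 := sum_inj_le S C (fun z => s⁻¹ * z.1.2)
    (fun z => (z.1.1, z.2.1, z.2.2)) (fun z hz => (cols_c2 (hok z hz).2).1) (by
      rintro ⟨⟨v, v'⟩, x, r⟩ _ ⟨⟨v1, v1'⟩, x1, r1⟩ _ h
      simp only [Prod.mk.injEq] at h
      obtain ⟨h, hq, h2, h3⟩ := h
      have h1 := mul_left_cancel h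
      subst h1 h2 h3 hq
      rfl) g hgn
  have k5 := sum_inj_le S C (fun z => z.1.1⁻¹ * z.2.1)
    (fun z => (z.1.1, z.1.2, z.2.2)) (fun z hz => (cols_c2 (hok z hz).1).2) (by
      rintro ⟨⟨v, v'⟩, x, r⟩ _ ⟨⟨v1, v1'⟩, x1, r1⟩ _ h
      simp only [Prod.mk.injEq] at h
      obtain ⟨h, hq, h2, h3⟩ := h
      subst h2 h3 hq
      have h1 := mul_left_cancel h
      subst h1
      rfl) g hgn
  have k6 := sum_inj_le S C (fun z => z.1.2⁻¹ * z.2.1)
    (fun z => (z.1.1, z.1.2, z.2.2)) (fun z hz => (cols_c2 (hok z hz).2).2) (by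
      rintro ⟨⟨v, v'⟩, x, r⟩ _ ⟨⟨v1, v1'⟩, x1, r1⟩ _ h
      simp only [Prod.mk.injEq] at h
      obtain ⟨h, hq, h2, h3⟩ := h
      subst h2 h3 hq
      have h1 := mul_left_cancel h
      subst h1
      rfl) g hgn
  rw [hE] at k3 k4 k5 k6
  linarith

end perindex

section lower
variable {G : Type} [Group G] [Fintype G] [DecidableEq G]

lemma ok_iff {C : Finset G} {s t : G} {m : ℕ} {x : Fin m → G} :
    H59.ok C s t x ↔ okP C s t x := by
  unfold H59.ok H59.okL okP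
  rw [List.nodup_ofFn]

lemma rt_inv (g : G) : rt g⁻¹ = rt g := by
  unfold rt
  apply Finset.card_bij (fun x _ => x⁻¹)
  · intro x hx
    rw [mem_filter] at hx ⊢
    refine ⟨mem_univ _, ?_⟩
    rw [← mul_inv_rev, hx.2, inv_inv]
  · intro a _ b _ h
    exact inv_injective h
  · intro b hb
    rw [mem_filter] at hb
    refine ⟨b⁻¹, ?_, inv_inv b⟩
    rw [mem_filter]
    refine ⟨mem_univ _, ?_⟩
    rw [← mul_inv_rev, hb.2]

lemma rt_conj' (g h : G) : rt (h * g * h⁻¹) = rt g := by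
  unfold rt
  symm
  apply Finset.card_bij (fun x _ => h * x * h⁻¹)
  · intro x hx
    rw [mem_filter] at hx ⊢
    refine ⟨mem_univ _, ?_⟩
    rw [← hx.2]
    group
  · intro a _ b _ hab
    exact mul_left_cancel (mul_right_cancel hab)
  · intro b hb
    rw [mem_filter] at hb
    refine ⟨h⁻¹ * b * h, ?_, by group⟩
    rw [mem_filter]
    refine ⟨mem_univ _, ?_⟩
    have := hb.2
    calc h⁻¹ * b * h * (h⁻¹ * b * h) = h⁻¹ * (b * b) * h := by group
      _ = h⁻¹ * (h * g * h⁻¹) * h := by rw [this]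
      _ = g := by group

lemma rt_a (s t c : G) : rt (s * c * t⁻¹) = rt (s⁻¹ * t * c⁻¹) := by
  rw [← rt_inv, ← rt_conj' _ s⁻¹]
  congr 1
  group

lemma rt_b (s t c : G) : rt (s * c⁻¹ * t⁻¹) = rt (s⁻¹ * t * c) := by
  rw [rt_a, inv_inv]

lemma sum_rt : ∑ g : G, rt g = Fintype.card G := by
  unfold rt
  rw [← Finset.card_univ]
  exact (Finset.card_eq_sum_card_fiberwise (f := fun x : G => x * x) (fun x _ => Finset.mem_coe.mpr (mem_univ _))).symm

/-- bound for the bad tuples in a parametrised family with a fixed first inner colour -/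
lemma bad_le {m : ℕ} (hm : m ≤ 2) (C : Finset G) (h1 : (1 : G) ∉ C) (s t c : G) (hc : c ∈ C)
    (P : G × (Fin m → G) → Fin (m + 2) → G) (hP : Function.Injective P)
    (hPc : ∀ w, (P w 0)⁻¹ * P w 1 = c) :
    (univ.filter fun w => ¬ okP C s t (P w)).card ≤
      64 * (1 + (univ \ C).card + (rt (s * c * t⁻¹) + rt (s * c⁻¹ * t⁻¹))) *
        Fintype.card G ^ m := by
  have hm' : m + 2 = 2 ∨ m + 2 = 3 ∨ m + 2 = 4 := by omega
  have key := H59.ptC hm' C h1 s t c hc ⟨1, by omega⟩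
  have e : m + 2 - 2 = m := by omega
  rw [e] at key
  refine le_trans ?_ key
  apply Finset.card_le_card_of_injOn P
  · intro w hw
    rw [Finset.mem_coe, mem_filter] at hw
    rw [Finset.mem_coe, mem_filter]
    refine ⟨mem_univ _, ?_, ?_⟩
    · have := H59.colF_mid (f := m + 1) s t (P w) 0 (by omega)
      rw [this]
      exact hPc w
    · rw [ok_iff]
      exact hw.2
  · exact hP.injOn

lemma bad_le_V {m : ℕ} (hm : m ≤ 2) (C : Finset G) (s t v : G) :
    (univ.filter fun w : G × (Fin m → G) => ¬ okP C s t (c2 v w.1 w.2)).card ≤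
      64 * (1 + (univ \ C).card + (rt (s * v⁻¹) + rt (v * t⁻¹))) * Fintype.card G ^ m +
        (if s⁻¹ * v ∈ C then 0 else 1) * Fintype.card G ^ (m + 1) := by
  by_cases h : s⁻¹ * v ∈ C
  · rw [if_pos h, zero_mul, add_zero]
    have hm' : m + 2 = 2 ∨ m + 2 = 3 ∨ m + 2 = 4 := by omega
    have key := H59.ptV hm' C s t v ⟨0, by omega⟩ (fun _ => h) (by intro h2; simp at h2)
    have e : m + 2 - 2 = m := by omega
    rw [e] at key
    refine le_trans ?_ key
    apply Finset.card_le_card_of_injOn (fun w => c2 v w.1 w.2)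
    · intro w hw
      rw [Finset.mem_coe, mem_filter] at hw
      rw [Finset.mem_coe, mem_filter]
      refine ⟨mem_univ _, rfl, ?_⟩
      rw [ok_iff]
      exact hw.2
    · rintro ⟨x, r⟩ _ ⟨x1, r1⟩ _ h
      obtain ⟨_, h2, h3⟩ := c2_inj h
      simp only at h2 h3
      subst h2 h3
      rfl
  · rw [if_neg h, one_mul]
    refine le_trans (Finset.card_filter_le _ _) ?_
    refine le_trans (le_of_eq ?_) (Nat.le_add_left _ _)
    rw [Finset.card_univ, Fintype.card_prod, Fintype.card_fun, Fintype.card_fin]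
    ring

/-- cost function -/
def bc (C : Finset G) (s t c : G) : ℕ :=
  64 * (1 + (univ \ C).card + (rt (s * c * t⁻¹) + rt (s * c⁻¹ * t⁻¹)))

lemma B_i {m : ℕ} (hm : m ≤ 2) (V C : Finset G) (h1 : (1 : G) ∉ C) (s t p q r' : G)
    (hp : p ∈ C) (hq : q ∈ C) (hr : r' ∈ C) (hu : q * p⁻¹ * r' ∈ C) :
    (V.filter fun x => x * p⁻¹ ∈ V ∧ x * q⁻¹ ∈ V ∧ x * (p⁻¹ * r') ∈ V).card * V.card ^ m ≤
      (univ.filter fun w => Quad V C s t m (p, q, r') w).card +
      (bc C s t p + bc C s t q + bc C s t r' + bc C s t (q * p⁻¹ * r')) * Fintype.card G ^ m := by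
  set X := V.filter fun x => x * p⁻¹ ∈ V ∧ x * q⁻¹ ∈ V ∧ x * (p⁻¹ * r') ∈ V with hX
  set P1 : G × (Fin m → G) → Fin (m + 2) → G := fun w => c2 (w.1 * p⁻¹) w.1 w.2 with hP1
  set P2 : G × (Fin m → G) → Fin (m + 2) → G := fun w => c2 (w.1 * q⁻¹) w.1 w.2 with hP2
  set P3 : G × (Fin m → G) → Fin (m + 2) → G := fun w => c2 (w.1 * p⁻¹) (w.1 * p⁻¹ * r') w.2 with hP3
  set P4 : G × (Fin m → G) → Fin (m + 2) → G := fun w => c2 (w.1 * q⁻¹) (w.1 * p⁻¹ * r') w.2 with hP4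
  have b1 := bad_le hm C h1 s t p hp P1 (by
    rintro ⟨x, r⟩ ⟨x1, r1⟩ h
    obtain ⟨_, h2, h3⟩ := c2_inj h
    simp only at h2 h3
    subst h2 h3
    rfl) (by
    rintro ⟨x, r⟩
    simp only [hP1, c2_zero, c2_one]
    group)
  have b2 := bad_le hm C h1 s t q hq P2 (by
    rintro ⟨x, r⟩ ⟨x1, r1⟩ h
    obtain ⟨_, h2, h3⟩ := c2_inj h
    simp only at h2 h3
    subst h2 h3
    rfl) (by
    rintro ⟨x, r⟩
    simp only [hP2, c2_zero, c2_one]
    group)
  have b3 := bad_le hm C h1 s t r' hr P3 (by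
    rintro ⟨x, r⟩ ⟨x1, r1⟩ h
    obtain ⟨h2, _, h3⟩ := c2_inj h
    simp only at h2 h3
    have h2 := mul_right_cancel h2
    subst h2 h3
    rfl) (by
    rintro ⟨x, r⟩
    simp only [hP3, c2_zero, c2_one]
    group)
  have b4 := bad_le hm C h1 s t (q * p⁻¹ * r') hu P4 (by
    rintro ⟨x, r⟩ ⟨x1, r1⟩ h
    obtain ⟨h2, _, h3⟩ := c2_inj h
    simp only at h2 h3
    have h2 := mul_right_cancel h2
    subst h2 h3
    rfl) (by
    rintro ⟨x, r⟩
    simp only [hP4, c2_zero, c2_one]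
    group)
  have hsub : X ×ˢ (Fintype.piFinset fun _ : Fin m => V) ⊆
      (univ.filter fun w => Quad V C s t m (p, q, r') w) ∪
      (((univ.filter fun w => ¬ okP C s t (P1 w)) ∪ (univ.filter fun w => ¬ okP C s t (P2 w))) ∪
      ((univ.filter fun w => ¬ okP C s t (P3 w)) ∪ (univ.filter fun w => ¬ okP C s t (P4 w)))) := by
    rintro ⟨x, r⟩ hw
    rw [mem_product, Fintype.mem_piFinset] at hw
    obtain ⟨hx, hr2⟩ := hw
    simp only at hx hr2
    rw [hX, mem_filter] at hx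
    obtain ⟨hx0, hx1, hx2, hx3⟩ := hx
    rw [← mul_assoc] at hx3
    simp only [mem_union, mem_filter, mem_univ, true_and]
    by_contra hcon
    push Not at hcon
    obtain ⟨hQ, ⟨k1, k2⟩, k3, k4⟩ := hcon
    apply hQ
    have hv : ∀ a b : G, a ∈ V → b ∈ V → ∀ j, c2 a b r j ∈ V := by
      intro a b ha hb j
      refine Fin.cases ?_ (fun j => ?_) j
      · exact ha
      · refine Fin.cases ?_ (fun j => ?_) j
        · exact hb
        · exact hr2 j
    refine ⟨?_, ?_, ?_, ?_⟩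
    · exact mem_PM.mpr ⟨hv _ _ hx1 hx0, k1⟩
    · exact mem_PM.mpr ⟨hv _ _ hx2 hx0, k2⟩
    · exact mem_PM.mpr ⟨hv _ _ hx1 hx3, k3⟩
    · exact mem_PM.mpr ⟨hv _ _ hx2 hx3, k4⟩
  have hcard := card_le_card hsub
  rw [card_product, Fintype.card_piFinset] at hcard
  simp only [prod_const, card_univ, Fintype.card_fin] at hcard
  refine le_trans hcard ?_
  refine le_trans (card_union_le _ _) ?_
  apply Nat.add_le_add_left
  refine le_trans (card_union_le _ _) ?_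
  have u1 := card_union_le (univ.filter fun w => ¬ okP C s t (P1 w))
    (univ.filter fun w => ¬ okP C s t (P2 w))
  have u2 := card_union_le (univ.filter fun w => ¬ okP C s t (P3 w))
    (univ.filter fun w => ¬ okP C s t (P4 w))
  have e : (bc C s t p + bc C s t q + bc C s t r' + bc C s t (q * p⁻¹ * r')) * Fintype.card G ^ m
    = bc C s t p * Fintype.card G ^ m + bc C s t q * Fintype.card G ^ m +
      bc C s t r' * Fintype.card G ^ m + bc C s t (q * p⁻¹ * r') * Fintype.card G ^ m := by ring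
  rw [e]
  unfold bc
  omega

def bv (C : Finset G) (s t v : G) : ℕ :=
  64 * (1 + (univ \ C).card + (rt (s * v⁻¹) + rt (v * t⁻¹)))

lemma D_i {m : ℕ} (hm : m ≤ 2) (V C : Finset G) (s t v v' : G) (hv : v ∈ V) (hv' : v' ∈ V) :
    V.card ^ (m + 1) ≤
      (univ.filter fun w => Pair V C s t m (v, v') w).card +
      (bv C s t v + bv C s t v') * Fintype.card G ^ m +
      ((if s⁻¹ * v ∈ C then 0 else 1) + (if s⁻¹ * v' ∈ C then 0 else 1)) *
        Fintype.card G ^ (m + 1) := by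
  have b1 := bad_le_V hm C s t v
  have b2 := bad_le_V hm C s t v'
  have hsub : V ×ˢ (Fintype.piFinset fun _ : Fin m => V) ⊆
      (univ.filter fun w => Pair V C s t m (v, v') w) ∪
      ((univ.filter fun w : G × (Fin m → G) => ¬ okP C s t (c2 v w.1 w.2)) ∪
      (univ.filter fun w : G × (Fin m → G) => ¬ okP C s t (c2 v' w.1 w.2))) := by
    rintro ⟨x, r⟩ hw
    rw [mem_product, Fintype.mem_piFinset] at hw
    obtain ⟨hx, hr2⟩ := hw
    simp only at hx hr2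
    simp only [mem_union, mem_filter, mem_univ, true_and]
    by_contra hcon
    push Not at hcon
    obtain ⟨hQ, k1, k2⟩ := hcon
    apply hQ
    have hv : ∀ a b : G, a ∈ V → b ∈ V → ∀ j, c2 a b r j ∈ V := by
      intro a b ha hb j
      refine Fin.cases ?_ (fun j => ?_) j
      · exact ha
      · refine Fin.cases ?_ (fun j => ?_) j
        · exact hb
        · exact hr2 j
    exact ⟨mem_PM.mpr ⟨hv _ _ (by assumption) hx, k1⟩, mem_PM.mpr ⟨hv _ _ hv' hx, k2⟩⟩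
  have hcard := card_le_card hsub
  rw [card_product, Fintype.card_piFinset] at hcard
  simp only [prod_const, card_univ, Fintype.card_fin] at hcard
  have e0 : V.card ^ (m + 1) = V.card * V.card ^ m := by ring
  rw [e0]
  refine le_trans hcard ?_
  refine le_trans (card_union_le _ _) ?_
  have u1 := card_union_le (univ.filter fun w : G × (Fin m → G) => ¬ okP C s t (c2 v w.1 w.2))
    (univ.filter fun w : G × (Fin m → G) => ¬ okP C s t (c2 v' w.1 w.2))
  have e : (bv C s t v + bv C s t v') * Fintype.card G ^ m =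
    bv C s t v * Fintype.card G ^ m + bv C s t v' * Fintype.card G ^ m := by ring
  have e2 : ((if s⁻¹ * v ∈ C then 0 else 1) + (if s⁻¹ * v' ∈ C then 0 else 1)) *
        Fintype.card G ^ (m + 1) = (if s⁻¹ * v ∈ C then 0 else 1) * Fintype.card G ^ (m + 1) +
        (if s⁻¹ * v' ∈ C then 0 else 1) * Fintype.card G ^ (m + 1) := by ring
  rw [e, e2]
  unfold bv
  omega

end lower

section sums
variable {G : Type} [Group G] [Fintype G] [DecidableEq G]

/-- the facts used about `(I, V, C)` -/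
structure Facts (I : Finset (Idx G)) (V C : Finset G) (ε : ℝ) : Prop where
  len : ∀ i ∈ I, i.2.2 = 3 ∨ i.2.2 = 4 ∨ i.2.2 = 5
  src : Set.InjOn (fun i : Idx G => i.1) (I : Set (Idx G))
  tgt : Set.InjOn (fun i : Idx G => i.2.1) (I : Set (Idx G))
  one : (1 : G) ∉ C
  big : (Fintype.card G : ℝ) ≤ 6 * I.card
  IV : (I.card : ℝ) ≤ Fintype.card G
  VV : (Fintype.card G : ℝ) ≤ 3 * V.card
  full : ((univ \ C).card : ℝ) ≤ ε * Fintype.card G
  q3 : ∀ a b c : G, a ≠ 1 → b ≠ 1 → c ≠ 1 → a ≠ b → a ≠ c → b ≠ c →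
    Fintype.card G ≤ 10 * (V.filter fun x => x * a ∈ V ∧ x * b ∈ V ∧ x * c ∈ V).card
  q5 : ∀ c ∈ C, ((∑ i ∈ I, rt (i.1⁻¹ * i.2.1 * c) : ℕ) : ℝ) ≤ ε * (Fintype.card G : ℝ) ^ 2 ∧
    ((∑ i ∈ I, rt (i.1⁻¹ * i.2.1 * c⁻¹) : ℕ) : ℝ) ≤ ε * (Fintype.card G : ℝ) ^ 2
  eps0 : 0 < ε
  eps : ε ≤ 1 / 2000000
  large : (1000000 : ℝ) ≤ Fintype.card G

lemma facts_of_NH {I : Finset (Idx G)} {V C : Finset G} {ε : ℝ} (h : NH ε I V C) (h0 : 0 < ε)
    (h1 : ε ≤ 1 / 2000000) (h2 : (1000000 : ℝ) ≤ Fintype.card G) : Facts I V C ε where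
  len := h.len
  src := h.src
  tgt := h.tgt
  one := h.one
  big := by exact_mod_cast h.big
  IV := by
    have : I.card ≤ Fintype.card G := by
      rw [← Finset.card_univ]
      exact Finset.card_le_card_of_injOn (fun i : Idx G => i.1)
        (fun _ _ => Finset.mem_coe.mpr (mem_univ _)) h.src
    exact_mod_cast this
  VV := by
    have h3 : 2 * I.card ≤ V.card := by
      rw [← h.cardV, mul_comm, ← smul_eq_mul, ← Finset.sum_const]
      apply Finset.sum_le_sum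
      intro i hi
      rcases h.len i hi with h | h | h <;> omega
    have h4 := h.big
    have : Fintype.card G ≤ 3 * V.card := by omega
    exact_mod_cast this
  full := h.full
  q3 := h.q3
  q5 := h.q5
  eps0 := h0
  eps := h1
  large := h2

variable {I : Finset (Idx G)} {V C : Finset G} {ε : ℝ}

lemma sum_src_le (f : G → ℝ) (hf : ∀ g, 0 ≤ f g) (F : Facts I V C ε) (g : G → G)
    (hg : Function.Injective g) : ∑ i ∈ I, f (g i.1) ≤ ∑ x : G, f x := by
  have := sum_inj_le (E := Unit) I (univ : Finset G) (fun i : Idx G => g i.1) (fun _ => ())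
    (fun _ _ => mem_univ _) (by
      intro i hi j hj h
      simp only [Prod.mk.injEq, and_true] at h
      exact F.src hi hj (hg h)) f (fun b _ => hf b)
  simpa using this

lemma sum_tgt_le (f : G → ℝ) (hf : ∀ g, 0 ≤ f g) (F : Facts I V C ε) (g : G → G)
    (hg : Function.Injective g) : ∑ i ∈ I, f (g i.2.1) ≤ ∑ x : G, f x := by
  have := sum_inj_le (E := Unit) I (univ : Finset G) (fun i : Idx G => g i.2.1) (fun _ => ())
    (fun _ _ => mem_univ _) (by
      intro i hi j hj h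
      simp only [Prod.mk.injEq, and_true] at h
      exact F.tgt hi hj (hg h)) f (fun b _ => hf b)
  simpa using this

/-- weights: the number of quadruples -/
lemma B_sum (F : Facts I V C ε) {p q r' : G} (hp : p ∈ C) (hq : q ∈ C) (hr : r' ∈ C)
    (hu : q * p⁻¹ * r' ∈ C) (hpq : p ≠ q) (hpr : p ≠ r') :
    1 / 1080 ≤ ∑ i ∈ I, ((univ.filter fun w => Quad V C i.1 i.2.1 (i.2.2 - 3) (p, q, r') w).card : ℝ) /
      (Fintype.card G : ℝ) ^ (i.2.2 - 3 + 2) := by
  set n : ℝ := (Fintype.card G : ℝ) with hn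
  have hn0 : 0 < n := by linarith [F.large]
  have hV0 : (0 : ℝ) ≤ V.card := Nat.cast_nonneg _
  have h1 : ∀ {c : G}, c ∈ C → c ≠ 1 := fun hc h => F.one (h ▸ hc)
  have hq3 := F.q3 p⁻¹ q⁻¹ (p⁻¹ * r') (by simpa using h1 hp) (by simpa using h1 hq)
    (by
      intro h
      apply hpr
      have := eq_inv_of_mul_eq_one_left h
      rw [inv_eq_iff_eq_inv, inv_inv] at this
      exact this)
    (by simpa using hpq)
    (by
      intro h
      apply h1 hr
      have h3 : p⁻¹ * 1 = p⁻¹ * r' := by rw [mul_one]; exact h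
      exact (mul_left_cancel h3).symm)
    (by
      intro h
      apply h1 hu
      rw [mul_assoc, ← h, mul_inv_cancel])
  set X := V.filter fun x => x * p⁻¹ ∈ V ∧ x * q⁻¹ ∈ V ∧ x * (p⁻¹ * r') ∈ V with hX
  have hXn : n ≤ 10 * X.card := by
    rw [hn]
    exact_mod_cast hq3
  -- per index
  have hper : ∀ i ∈ I, 1 / (90 * n) - ((bc C i.1 i.2.1 p : ℝ) + bc C i.1 i.2.1 q +
      bc C i.1 i.2.1 r' + bc C i.1 i.2.1 (q * p⁻¹ * r')) / n ^ 2 ≤
      ((univ.filter fun w => Quad V C i.1 i.2.1 (i.2.2 - 3) (p, q, r') w).card : ℝ) /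
      n ^ (i.2.2 - 3 + 2) := by
    intro i hi
    have hm : i.2.2 - 3 ≤ 2 := by
      rcases F.len i hi with h | h | h <;> omega
    have hB := B_i hm V C F.one i.1 i.2.1 p q r' hp hq hr hu
    have hB' : (X.card : ℝ) * (V.card : ℝ) ^ (i.2.2 - 3) ≤
        ((univ.filter fun w => Quad V C i.1 i.2.1 (i.2.2 - 3) (p, q, r') w).card : ℝ) +
        ((bc C i.1 i.2.1 p : ℝ) + bc C i.1 i.2.1 q + bc C i.1 i.2.1 r' +
          bc C i.1 i.2.1 (q * p⁻¹ * r')) * n ^ (i.2.2 - 3) := by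
      rw [hn]
      exact_mod_cast hB
    rw [tsub_le_iff_right, ← mul_div_mul_right _ (n ^ 2) (by positivity : n ^ (i.2.2 - 3) ≠ 0),
      ← pow_add, add_comm 2 (i.2.2 - 3), ← add_div, le_div_iff₀ (by positivity)]
    refine le_trans ?_ hB'
    have h3 : (n / 3) ^ (i.2.2 - 3) ≤ (V.card : ℝ) ^ (i.2.2 - 3) :=
      pow_le_pow_left₀ (by positivity) (by linarith [F.VV]) _
    have h9 : (3 : ℝ) ^ (i.2.2 - 3) ≤ 9 := by
      calc (3 : ℝ) ^ (i.2.2 - 3) ≤ 3 ^ 2 := pow_le_pow_right₀ (by norm_num) hm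
        _ = 9 := by norm_num
    calc 1 / (90 * n) * n ^ (i.2.2 - 3 + 2) = (n / 10) * (n ^ (i.2.2 - 3) * (1 / 9)) := by
          rw [pow_add]
          field_simp
          norm_num
      _ ≤ (n / 10) * (n ^ (i.2.2 - 3) * (1 / 3 ^ (i.2.2 - 3))) := by
          apply mul_le_mul_of_nonneg_left _ (by positivity)
          apply mul_le_mul_of_nonneg_left _ (by positivity)
          exact one_div_le_one_div_of_le (by positivity) h9
      _ = (n / 10) * (n / 3) ^ (i.2.2 - 3) := by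
          rw [div_pow]
          ring
      _ ≤ X.card * (V.card : ℝ) ^ (i.2.2 - 3) := by
          apply mul_le_mul (by linarith) h3 (by positivity) (Nat.cast_nonneg _)
  -- sum of the costs
  have hbc : ∀ c ∈ C, ∑ i ∈ I, (bc C i.1 i.2.1 c : ℝ) ≤ 64 * (n + 3 * ε * n ^ 2) := by
    intro c hc
    obtain ⟨k1, k2⟩ := F.q5 c hc
    have e : ∑ i ∈ I, (bc C i.1 i.2.1 c : ℝ) = 64 * ((I.card : ℝ) * (1 + ((univ \ C).card : ℝ)) +
        (((∑ i ∈ I, rt (i.1⁻¹ * i.2.1 * c⁻¹) : ℕ) : ℝ) +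
          ((∑ i ∈ I, rt (i.1⁻¹ * i.2.1 * c) : ℕ) : ℝ))) := by
      have e0 : ∀ i : Idx G, (bc C i.1 i.2.1 c : ℝ) = 64 * ((1 + ((univ \ C).card : ℝ)) +
          ((rt (i.1⁻¹ * i.2.1 * c⁻¹) : ℝ) + (rt (i.1⁻¹ * i.2.1 * c) : ℝ))) := by
        intro i
        unfold bc
        rw [rt_a, rt_b]
        push_cast
        ring
      rw [Finset.sum_congr rfl (fun i _ => e0 i), ← Finset.mul_sum, Finset.sum_add_distrib,
        Finset.sum_const, nsmul_eq_mul, Finset.sum_add_distrib]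
      push_cast
      rfl
    rw [e]
    have k3 : (I.card : ℝ) * (1 + ((univ \ C).card : ℝ)) ≤ n * (1 + ε * n) := by
      apply mul_le_mul F.IV _ (by positivity) hn0.le
      linarith [F.full]
    nlinarith
  refine le_trans ?_ (Finset.sum_le_sum hper)
  rw [Finset.sum_sub_distrib, Finset.sum_const, nsmul_eq_mul, ← Finset.sum_div,
    Finset.sum_add_distrib, Finset.sum_add_distrib, Finset.sum_add_distrib]
  have c1 := hbc p hp
  have c2 := hbc q hq
  have c3 := hbc r' hr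
  have c4 := hbc (q * p⁻¹ * r') hu
  have m1 : 1 / 540 ≤ (I.card : ℝ) * (1 / (90 * n)) := by
    rw [mul_one_div, div_le_div_iff₀ (by norm_num) (by positivity)]
    nlinarith [F.big]
  have m2 : (∑ i ∈ I, (bc C i.1 i.2.1 p : ℝ) + ∑ i ∈ I, (bc C i.1 i.2.1 q : ℝ) +
      ∑ i ∈ I, (bc C i.1 i.2.1 r' : ℝ) + ∑ i ∈ I, (bc C i.1 i.2.1 (q * p⁻¹ * r') : ℝ)) / n ^ 2 ≤
      1 / 1080 := by
    rw [div_le_div_iff₀ (by positivity) (by norm_num)]
    have h5 : ε * n ^ 2 ≤ 1 / 2000000 * n ^ 2 := mul_le_mul_of_nonneg_right F.eps (by positivity)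
    have h6 : 1000000 * n ≤ n ^ 2 := by nlinarith [F.large]
    nlinarith
  linarith

/-- weights: the number of pairs -/
lemma D_sum (F : Facts I V C ε) {v v' : G} (hv : v ∈ V) (hv' : v' ∈ V) :
    1 / 324 ≤ ∑ i ∈ I, ((univ.filter fun w => Pair V C i.1 i.2.1 (i.2.2 - 3) (v, v') w).card : ℝ) /
      (Fintype.card G : ℝ) ^ (i.2.2 - 3 + 2) := by
  set n : ℝ := (Fintype.card G : ℝ) with hn
  have hn0 : 0 < n := by linarith [F.large]
  set δ : G → Idx G → ℕ := fun v i => if i.1⁻¹ * v ∈ C then 0 else 1 with hδ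
  have hper : ∀ i ∈ I, 1 / (27 * n) - ((bv C i.1 i.2.1 v : ℝ) + bv C i.1 i.2.1 v') / n ^ 2 -
      ((δ v i : ℝ) + δ v' i) / n ≤
      ((univ.filter fun w => Pair V C i.1 i.2.1 (i.2.2 - 3) (v, v') w).card : ℝ) /
      n ^ (i.2.2 - 3 + 2) := by
    intro i hi
    have hm : i.2.2 - 3 ≤ 2 := by
      rcases F.len i hi with h | h | h <;> omega
    have hB := D_i hm V C i.1 i.2.1 v v' hv hv'
    have hB' : (V.card : ℝ) ^ (i.2.2 - 3 + 1) ≤
        ((univ.filter fun w => Pair V C i.1 i.2.1 (i.2.2 - 3) (v, v') w).card : ℝ) +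
        ((bv C i.1 i.2.1 v : ℝ) + bv C i.1 i.2.1 v') * n ^ (i.2.2 - 3) +
        ((δ v i : ℝ) + δ v' i) * n ^ (i.2.2 - 3 + 1) := by
      rw [hn]
      exact_mod_cast hB
    rw [tsub_le_iff_right, tsub_le_iff_right,
      ← mul_div_mul_right _ (n ^ 2) (by positivity : n ^ (i.2.2 - 3) ≠ 0),
      ← mul_div_mul_right _ n (by positivity : n ^ (i.2.2 - 3 + 1) ≠ 0)]
    have e1 : n ^ 2 * n ^ (i.2.2 - 3) = n ^ (i.2.2 - 3 + 2) := by ring
    have e2 : n * n ^ (i.2.2 - 3 + 1) = n ^ (i.2.2 - 3 + 2) := by ring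
    rw [e1, e2, ← add_div, ← add_div, le_div_iff₀ (by positivity)]
    have hB'' : (V.card : ℝ) ^ (i.2.2 - 3 + 1) ≤
        ((univ.filter fun w => Pair V C i.1 i.2.1 (i.2.2 - 3) (v, v') w).card : ℝ) +
        ((δ v i : ℝ) + δ v' i) * n ^ (i.2.2 - 3 + 1) +
        ((bv C i.1 i.2.1 v : ℝ) + bv C i.1 i.2.1 v') * n ^ (i.2.2 - 3) := by linarith
    refine le_trans ?_ hB''
    have h3 : (n / 3) ^ (i.2.2 - 3 + 1) ≤ (V.card : ℝ) ^ (i.2.2 - 3 + 1) :=
      pow_le_pow_left₀ (by positivity) (by linarith [F.VV]) _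
    have h9 : (3 : ℝ) ^ (i.2.2 - 3 + 1) ≤ 27 := by
      calc (3 : ℝ) ^ (i.2.2 - 3 + 1) ≤ 3 ^ 3 := pow_le_pow_right₀ (by norm_num) (by omega)
        _ = 27 := by norm_num
    calc 1 / (27 * n) * n ^ (i.2.2 - 3 + 2) = n ^ (i.2.2 - 3 + 1) * (1 / 27) := by
          rw [pow_add, pow_add]
          field_simp
      _ ≤ n ^ (i.2.2 - 3 + 1) * (1 / 3 ^ (i.2.2 - 3 + 1)) := by
          apply mul_le_mul_of_nonneg_left _ (by positivity)
          exact one_div_le_one_div_of_le (by positivity) h9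
      _ = (n / 3) ^ (i.2.2 - 3 + 1) := by
          rw [div_pow]
          ring
      _ ≤ (V.card : ℝ) ^ (i.2.2 - 3 + 1) := h3
  have hrt : ∑ x : G, (rt x : ℝ) = n := by
    rw [hn]
    exact_mod_cast sum_rt (G := G)
  have hbv : ∀ v : G, ∑ i ∈ I, (bv C i.1 i.2.1 v : ℝ) ≤ 64 * (3 * n + ε * n ^ 2) := by
    intro v
    have k1 := sum_src_le (fun g => (rt g : ℝ)) (fun g => Nat.cast_nonneg _) F (fun s => s * v⁻¹)
      (mul_left_injective _)
    have k2 := sum_tgt_le (fun g => (rt g : ℝ)) (fun g => Nat.cast_nonneg _) F (fun t => v * t⁻¹)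
      (fun a b h => inv_injective (mul_left_cancel h))
    simp only [hrt] at k1 k2
    have e : ∑ i ∈ I, (bv C i.1 i.2.1 v : ℝ) = 64 * ((I.card : ℝ) * (1 + ((univ \ C).card : ℝ)) +
        (∑ i ∈ I, (rt (i.1 * v⁻¹) : ℝ) + ∑ i ∈ I, (rt (v * i.2.1⁻¹) : ℝ))) := by
      have e0 : ∀ i : Idx G, (bv C i.1 i.2.1 v : ℝ) = 64 * ((1 + ((univ \ C).card : ℝ)) +
          ((rt (i.1 * v⁻¹) : ℝ) + (rt (v * i.2.1⁻¹) : ℝ))) := by
        intro i
        unfold bv
        push_cast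
        ring
      rw [Finset.sum_congr rfl (fun i _ => e0 i), ← Finset.mul_sum, Finset.sum_add_distrib,
        Finset.sum_const, nsmul_eq_mul, Finset.sum_add_distrib]
    rw [e]
    have k3 : (I.card : ℝ) * (1 + ((univ \ C).card : ℝ)) ≤ n * (1 + ε * n) := by
      apply mul_le_mul F.IV _ (by positivity) hn0.le
      linarith [F.full]
    nlinarith
  have hdl : ∀ v : G, ∑ i ∈ I, (δ v i : ℝ) ≤ ε * n := by
    intro v
    refine le_trans ?_ F.full
    have k1 := sum_src_le (fun g => if g ∈ C then (0 : ℝ) else 1) (fun g => by split_ifs <;> norm_num)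
      F (fun s => s⁻¹ * v) (fun a b h => inv_injective (mul_right_cancel h))
    have e1 : ∑ i ∈ I, (δ v i : ℝ) = ∑ i ∈ I, (if i.1⁻¹ * v ∈ C then (0 : ℝ) else 1) := by
      apply Finset.sum_congr rfl
      intro i _
      simp only [hδ]
      split_ifs <;> simp
    rw [e1]
    refine le_trans k1 (le_of_eq ?_)
    have e2 : ∀ g : G, (if g ∈ C then (0 : ℝ) else 1) = if g ∈ univ \ C then (1 : ℝ) else 0 := by
      intro g
      by_cases hg : g ∈ C <;> simp [hg]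
    simp only [e2]
    rw [Finset.sum_ite_mem, Finset.univ_inter, Finset.sum_const, nsmul_eq_mul, mul_one]
  refine le_trans ?_ (Finset.sum_le_sum hper)
  rw [Finset.sum_sub_distrib, Finset.sum_sub_distrib, Finset.sum_const, nsmul_eq_mul,
    ← Finset.sum_div, ← Finset.sum_div, Finset.sum_add_distrib, Finset.sum_add_distrib]
  have c1 := hbv v
  have c2 := hbv v'
  have d1 := hdl v
  have d2 := hdl v'
  have m1 : 1 / 162 ≤ (I.card : ℝ) * (1 / (27 * n)) := by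
    rw [mul_one_div, div_le_div_iff₀ (by norm_num) (by positivity)]
    nlinarith [F.big]
  have m2 : (∑ i ∈ I, (bv C i.1 i.2.1 v : ℝ) + ∑ i ∈ I, (bv C i.1 i.2.1 v' : ℝ)) / n ^ 2 ≤
      1 / 648 := by
    rw [div_le_div_iff₀ (by positivity) (by norm_num)]
    have h5 : ε * n ^ 2 ≤ 1 / 2000000 * n ^ 2 := mul_le_mul_of_nonneg_right F.eps (by positivity)
    have h6 : 1000000 * n ≤ n ^ 2 := by nlinarith [F.large]
    nlinarith
  have m3 : (∑ i ∈ I, (δ v i : ℝ) + ∑ i ∈ I, (δ v' i : ℝ)) / n ≤ 1 / 648 := by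
    rw [div_le_div_iff₀ (by positivity) (by norm_num)]
    have h5 : ε * n ≤ 1 / 2000000 * n := mul_le_mul_of_nonneg_right F.eps (by positivity)
    nlinarith
  linarith

end sums

/-- the value of a path, summed -/
lemma Phi_le {G : Type} [Group G] [Fintype G] [DecidableEq G] {V C : Finset G} {i : Idx G}
    (hl : 3 ≤ i.2.2) (yI : Idx G → ℝ) (yV yC : G → ℝ) :
    (∑ x ∈ PM V C i.1 i.2.1 (i.2.2 - 3 + 2), |val (yI i) yV yC i.1 i.2.1 x|) /
      (Fintype.card G : ℝ) ^ (i.2.2 - 3 + 2) ≤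
    (∑ x ∈ pathsF V C i, |yI i + ∑ j, yV (x j) +
      ((pcols i.1 (List.ofFn x) i.2.1).map yC).sum|) / (pathsF V C i).card := by
  obtain ⟨s, t, l⟩ := i
  simp only at hl ⊢
  obtain ⟨k, rfl⟩ := Nat.exists_eq_add_of_le' hl
  show (∑ x ∈ PM V C s t (k + 2), |val (yI (s, t, k + 3)) yV yC s t x|) /
      (Fintype.card G : ℝ) ^ (k + 2) ≤
    (∑ x ∈ PM V C s t (k + 2), |val (yI (s, t, k + 3)) yV yC s t x|) /
      ((PM V C s t (k + 2)).card : ℝ)
  rcases Nat.eq_zero_or_pos (PM V C s t (k + 2)).card with h | h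
  · rw [card_eq_zero] at h
    rw [h]
    simp
  · apply div_le_div_of_nonneg_left _ (by exact_mod_cast h) _
    · exact Finset.sum_nonneg (fun x _ => abs_nonneg _)
    · have h2 : (PM V C s t (k + 2)).card ≤ Fintype.card G ^ (k + 2) := by
        refine le_trans (Finset.card_le_univ _) (le_of_eq ?_)
        rw [Fintype.card_fun, Fintype.card_fin]
      exact_mod_cast h2

theorem stmt_INEQ (hQC : Stmt_QC) : Stmt_INEQ := by
  obtain ⟨K, ε₁, N₁, hε₁, hQC⟩ := hQC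
  set K₁ : ℝ := |K| * 4320 with hK₁
  have hK₁0 : 0 ≤ K₁ := by positivity
  refine ⟨972 * (2 + 4 * K₁) + K₁, min ε₁ (1 / 2000000), max N₁ 1000000,
    lt_min hε₁ (by norm_num), ?_⟩
  intro G _ _ _ I V C hN hNH yI yV yC
  have hN₁ : N₁ ≤ Fintype.card G := le_trans (le_max_left _ _) hN
  have hlarge : (1000000 : ℝ) ≤ Fintype.card G := by exact_mod_cast le_trans (le_max_right _ _) hN
  have F := facts_of_NH hNH (lt_min hε₁ (by norm_num)) (min_le_right _ _) hlarge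
  set n : ℝ := (Fintype.card G : ℝ) with hn
  have hn0 : 0 < n := by linarith
  set Φ : Idx G → ℝ := fun i =>
    ∑ x ∈ PM V C i.1 i.2.1 (i.2.2 - 3 + 2), |val (yI i) yV yC i.1 i.2.1 x| with hΦ
  set R' : ℝ := ∑ i ∈ I, Φ i / n ^ (i.2.2 - 3 + 2) with hR'
  set R : ℝ := ∑ i ∈ I, (∑ x ∈ pathsF V C i, |yI i + ∑ j, yV (x j) +
      ((pcols i.1 (List.ofFn x) i.2.1).map yC).sum|) / (pathsF V C i).card with hR
  have hR'R : R' ≤ R := by
    apply Finset.sum_le_sum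
    intro i hi
    apply Phi_le
    rcases F.len i hi with h | h | h <;> omega
  have hR'0 : 0 ≤ R' := by
    apply Finset.sum_nonneg
    intro i _
    apply div_nonneg (Finset.sum_nonneg (fun x _ => abs_nonneg _)) (by positivity)
  -- the colours
  set good : Finset (G × G × G) := (univ : Finset (G × G × G)).filter
    (fun t => t.1 ∈ C ∧ t.2.1 ∈ C ∧ t.2.2 ∈ C ∧
        t.2.1 * t.1⁻¹ * t.2.2 ∈ C ∧ t.1 ≠ t.2.1 ∧ t.1 ≠ t.2.2 ∧ t.2.1 ≠ t.2.2 ∧
        t.2.1 * t.1⁻¹ * t.2.2 ≠ t.1) with hgood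
  have hcomb : ∑ τ ∈ good, |Dl yC τ| ≤ 4320 * n ^ 2 * R' := by
    have h1 : ∑ τ ∈ good, |Dl yC τ| * (1 / 1080) ≤ ∑ τ ∈ good, |Dl yC τ| *
        ∑ i ∈ I, ((univ.filter fun w => Quad V C i.1 i.2.1 (i.2.2 - 3) τ w).card : ℝ) /
          n ^ (i.2.2 - 3 + 2) := by
      apply Finset.sum_le_sum
      rintro ⟨p, q, r'⟩ hτ
      rw [hgood, mem_filter] at hτ
      obtain ⟨_, k1, k2, k3, k4, k5, k6, k7, k8⟩ := hτ
      apply mul_le_mul_of_nonneg_left _ (abs_nonneg _)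
      exact B_sum F k1 k2 k3 k4 k5 k6
    have h2 : ∑ τ ∈ good, |Dl yC τ| *
        ∑ i ∈ I, ((univ.filter fun w => Quad V C i.1 i.2.1 (i.2.2 - 3) τ w).card : ℝ) /
          n ^ (i.2.2 - 3 + 2) ≤ 4 * n ^ 2 * R' := by
      simp only [Finset.mul_sum]
      rw [Finset.sum_comm, hR', Finset.mul_sum]
      apply Finset.sum_le_sum
      intro i _
      have := A_i V C (yI i) yV yC i.1 i.2.1 (i.2.2 - 3) good
      have e : ∑ τ ∈ good, |Dl yC τ| *
          (((univ.filter fun w => Quad V C i.1 i.2.1 (i.2.2 - 3) τ w).card : ℝ) /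
          n ^ (i.2.2 - 3 + 2)) = (∑ τ ∈ good, |Dl yC τ| *
          ((univ.filter fun w => Quad V C i.1 i.2.1 (i.2.2 - 3) τ w).card : ℝ)) /
          n ^ (i.2.2 - 3 + 2) := by
        rw [Finset.sum_div]
        apply Finset.sum_congr rfl
        intro τ _
        ring
      rw [e, ← mul_div_assoc]
      exact div_le_div_of_nonneg_right this (by positivity)
    rw [← Finset.sum_mul] at h1
    have h3 := le_trans h1 h2
    nlinarith
  obtain ⟨κC, hκC⟩ := hQC G C yC hN₁ (le_trans F.full (by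
    apply mul_le_mul_of_nonneg_right (min_le_left _ _) hn0.le))
  have hκC' : n ^ 2 * ∑ c ∈ C, |yC c - κC| ≤ K * ∑ τ ∈ good, |Dl yC τ| := hκC
  have hSC : ∑ c ∈ C, |yC c - κC| ≤ K₁ * R' := by
    have h1 : n ^ 2 * ∑ c ∈ C, |yC c - κC| ≤ n ^ 2 * (K₁ * R') := by
      calc n ^ 2 * ∑ c ∈ C, |yC c - κC| ≤ K * ∑ τ ∈ good, |Dl yC τ| := hκC'
        _ ≤ |K| * ∑ τ ∈ good, |Dl yC τ| :=
            mul_le_mul_of_nonneg_right (le_abs_self K) (Finset.sum_nonneg fun _ _ => abs_nonneg _)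
        _ ≤ |K| * (4320 * n ^ 2 * R') := mul_le_mul_of_nonneg_left hcomb (abs_nonneg K)
        _ = n ^ 2 * (K₁ * R') := by rw [hK₁]; ring
    exact le_of_mul_le_mul_left h1 (by positivity)
  set SC : ℝ := ∑ c ∈ C, |yC c - κC| with hSCdef
  have hSC0 : 0 ≤ SC := Finset.sum_nonneg fun _ _ => abs_nonneg _
  -- the vertices
  have hVV : ∑ u ∈ V ×ˢ V, |yV u.1 - yV u.2| ≤ 324 * n * (2 * R' + 4 * SC) := by
    have h1 : ∑ u ∈ V ×ˢ V, |yV u.1 - yV u.2| * (1 / 324) ≤ ∑ u ∈ V ×ˢ V, |yV u.1 - yV u.2| *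
        ∑ i ∈ I, ((univ.filter fun w => Pair V C i.1 i.2.1 (i.2.2 - 3) u w).card : ℝ) /
          n ^ (i.2.2 - 3 + 2) := by
      apply Finset.sum_le_sum
      rintro ⟨v, v'⟩ hu
      rw [mem_product] at hu
      apply mul_le_mul_of_nonneg_left _ (abs_nonneg _)
      exact D_sum F hu.1 hu.2
    have h2 : ∑ u ∈ V ×ˢ V, |yV u.1 - yV u.2| *
        ∑ i ∈ I, ((univ.filter fun w => Pair V C i.1 i.2.1 (i.2.2 - 3) u w).card : ℝ) /
          n ^ (i.2.2 - 3 + 2) ≤ ∑ i ∈ I, (2 * n * (Φ i / n ^ (i.2.2 - 3 + 2)) + 4 * SC) := by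
      simp only [Finset.mul_sum]
      rw [Finset.sum_comm]
      apply Finset.sum_le_sum
      intro i _
      have := C_i V C (yI i) yV yC κC i.1 i.2.1 (i.2.2 - 3)
      have e : ∑ u ∈ V ×ˢ V, |yV u.1 - yV u.2| *
          (((univ.filter fun w => Pair V C i.1 i.2.1 (i.2.2 - 3) u w).card : ℝ) /
          n ^ (i.2.2 - 3 + 2)) = (∑ u ∈ V ×ˢ V, |yV u.1 - yV u.2| *
          ((univ.filter fun w => Pair V C i.1 i.2.1 (i.2.2 - 3) u w).card : ℝ)) /
          n ^ (i.2.2 - 3 + 2) := by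
        rw [Finset.sum_div]
        apply Finset.sum_congr rfl
        intro τ _
        ring
      rw [e]
      have e2 : 2 * n * (Φ i / n ^ (i.2.2 - 3 + 2)) + 4 * SC =
          (2 * n * Φ i + 4 * n ^ (i.2.2 - 3 + 2) * SC) / n ^ (i.2.2 - 3 + 2) := by
        field_simp
      rw [e2]
      exact div_le_div_of_nonneg_right this (by positivity)
    rw [Finset.sum_add_distrib, ← Finset.mul_sum, Finset.sum_const, nsmul_eq_mul] at h2
    rw [← Finset.sum_mul] at h1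
    have h3 := le_trans h1 h2
    have h4 : (I.card : ℝ) * (4 * SC) ≤ n * (4 * SC) :=
      mul_le_mul_of_nonneg_right F.IV (by positivity)
    nlinarith
  -- choose the reference vertex
  have hVpos : 0 < V.card := by
    have := F.VV
    have h5 : (0 : ℝ) < V.card := by linarith
    exact_mod_cast h5
  have hVne : V.Nonempty := Finset.card_pos.mp hVpos
  obtain ⟨v₀, hv₀, hv₀'⟩ := Finset.exists_min_image V (fun v' => ∑ v ∈ V, |yV v - yV v'|) hVne
  have hmin : (V.card : ℝ) * ∑ v ∈ V, |yV v - yV v₀| ≤ ∑ u ∈ V ×ˢ V, |yV u.1 - yV u.2| := by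
    rw [Finset.sum_product_right, ← nsmul_eq_mul]
    exact Finset.card_nsmul_le_sum _ _ _ (fun v' hv' => hv₀' v' hv')
  refine ⟨yV v₀, κC, ?_⟩
  have hfin : ∑ v ∈ V, |yV v - yV v₀| ≤ 972 * (2 + 4 * K₁) * R' := by
    set SV := ∑ v ∈ V, |yV v - yV v₀| with hSV
    have hSV0 : 0 ≤ SV := Finset.sum_nonneg fun _ _ => abs_nonneg _
    have h1 : n * SV ≤ n * (972 * (2 * R' + 4 * SC)) := by
      have := F.VV
      calc n * SV ≤ (3 * V.card) * SV := mul_le_mul_of_nonneg_right this hSV0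
        _ = 3 * ((V.card : ℝ) * SV) := by ring
        _ ≤ 3 * (324 * n * (2 * R' + 4 * SC)) := by linarith
        _ = n * (972 * (2 * R' + 4 * SC)) := by ring
    have h2 : SV ≤ 972 * (2 * R' + 4 * SC) := le_of_mul_le_mul_left h1 hn0
    nlinarith
  have hKK : 0 ≤ 972 * (2 + 4 * K₁) + K₁ := by positivity
  calc ∑ v ∈ V, |yV v - yV v₀| + SC ≤ 972 * (2 + 4 * K₁) * R' + K₁ * R' := add_le_add hfin hSC
    _ = (972 * (2 + 4 * K₁) + K₁) * R' := by ring
    _ ≤ (972 * (2 + 4 * K₁) + K₁) * R := mul_le_mul_of_nonneg_left hR'R hKK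

end Pool.OM.H70

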