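import Pool.Agent.Work.MP_8d2cba_co_h18.Interface

/-! MP_8d2cba_co, block COD: codegrees. -/

set_option autoImplicit false
set_option linter.unusedSectionVars false

namespace Pool.OM.H70

open Finset Pool.OM

section
variable {G : Type} [Group G]

/-- the vertex number `a` of the path `s, x₀, …, x_{m-1}, t` -/
def YY (s t : G) {m : ℕ} (x : Fin m → G) (a : ℕ) : G :=
  if a = 0 then s else if h : a - 1 < m then x ⟨a - 1, h⟩ else t

lemma YY_zero (s t : G) {m : ℕ} (x : Fin m → G) : YY s t x 0 = s := by simp [YY]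

lemma YY_succ (s t : G) {m : ℕ} (x : Fin m → G) {a : ℕ} (h : a < m) :
    YY s t x (a + 1) = x ⟨a, h⟩ := by
  simp [YY, h]

lemma YY_last (s t : G) {m : ℕ} (x : Fin m → G) : YY s t x (m + 1) = t := by
  simp [YY]

lemma mem_pcols_list (c : G) : ∀ (p : List G) (s t : G), c ∈ pcols s p t →
    ∃ a ≤ p.length, ((s :: (p ++ [t])).getD a 1)⁻¹ * ((p ++ [t]).getD a 1) = c
  | [], s, t, h => by
    refine ⟨0, le_refl _, ?_⟩
    simp only [pcols, Multiset.mem_singleton] at h
    simp [h]
  | x :: p, s, t, h => by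
    simp only [pcols, Multiset.mem_cons] at h
    rcases h with h | h
    · exact ⟨0, Nat.zero_le _, by simp [h]⟩
    · obtain ⟨a, ha, he⟩ := mem_pcols_list c p x t h
      refine ⟨a + 1, by simpa using ha, ?_⟩
      simpa using he

lemma getD_ofFn_append (t : G) {m : ℕ} (x : Fin m → G) {a : ℕ} (ha : a ≤ m) (s : G) :
    (List.ofFn x ++ [t]).getD a 1 = YY s t x (a + 1) := by
  rcases Nat.lt_or_ge a m with h | h
  · rw [YY_succ s t x h, List.getD_append _ _ _ _ (by simpa using h)]
    rw [List.getD_eq_getElem _ _ (by simpa using h)]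
    simp
  · have : a = m := le_antisymm ha h
    subst this
    rw [YY_last, List.getD_append_right _ _ _ _ (by simp)]
    simp

lemma mem_pcols {c s t : G} {m : ℕ} {x : Fin m → G} (h : c ∈ pcols s (List.ofFn x) t) :
    ∃ a ≤ m, YY s t x (a + 1) = YY s t x a * c := by
  obtain ⟨a, ha, he⟩ := mem_pcols_list c _ s t h
  rw [List.length_ofFn] at ha
  refine ⟨a, ha, ?_⟩
  rw [getD_ofFn_append t x ha s] at he
  have h2 : (s :: (List.ofFn x ++ [t])).getD a 1 = YY s t x a := by
    rcases a with _ | a
    · simp [YY_zero]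
    · rw [List.getD_cons_succ]
      exact getD_ofFn_append t x (by omega) s
  rw [h2] at he
  rw [← he]
  group

end

section counting
variable {G : Type} [DecidableEq G]

/-- a set of tuples determined by the coordinates off `T` -/
lemma card_le_of_det {m : ℕ} (V : Finset G) (S : Finset (Fin m → G)) (T : Finset (Fin m))
    (hV : ∀ x ∈ S, ∀ j, x j ∈ V)
    (hdet : ∀ x ∈ S, ∀ x' ∈ S, (∀ j, j ∉ T → x j = x' j) → x = x') :
    S.card ≤ V.card ^ (m - T.card) := by
  classical
  have h1 : S.card ≤ (Fintype.piFinset fun _ : {j // j ∉ T} => V).card := by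
    apply Finset.card_le_card_of_injOn (fun x (j : {j // j ∉ T}) => x j.1)
    · intro x hx
      simp only [Finset.mem_coe, Fintype.mem_piFinset]
      exact fun j => hV x hx j.1
    · intro x hx x' hx' he
      apply hdet x hx x' hx'
      intro j hj
      exact congrFun he ⟨j, hj⟩
  rw [Fintype.card_piFinset] at h1
  simp only [Finset.prod_const, Finset.card_univ] at h1
  rwa [Fintype.card_subtype_compl, Fintype.card_fin, Fintype.card_coe] at h1

end counting

section tuples
variable {G : Type} [Group G] [DecidableEq G]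

/-- one vertex -/
lemma card_vertex {m : ℕ} (V : Finset G) (S : Finset (Fin m → G)) (hV : ∀ x ∈ S, ∀ j, x j ∈ V)
    (j : Fin m) (v : G) (h : ∀ x ∈ S, x j = v) : S.card ≤ V.card ^ (m - 1) := by
  have := card_le_of_det V S {j} hV (by
    intro x hx x' hx' he
    funext i
    by_cases hi : i = j
    · subst hi
      rw [h x hx, h x' hx']
    · exact he i (by simpa using hi))
  simpa using this

/-- one arc -/
lemma card_arc {m : ℕ} (hm : 1 ≤ m) (V : Finset G) (S : Finset (Fin m → G))
    (hV : ∀ x ∈ S, ∀ j, x j ∈ V) (s t c : G) (a : ℕ) (ha : a ≤ m)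
    (h : ∀ x ∈ S, YY s t x (a + 1) = YY s t x a * c) : S.card ≤ V.card ^ (m - 1) := by
  rcases Nat.lt_or_ge a m with ham | ham
  · have := card_le_of_det V S {(⟨a, ham⟩ : Fin m)} hV (by
      intro x hx x' hx' he
      have hY : YY s t x a = YY s t x' a := by
        rcases a with _ | a
        · rw [YY_zero, YY_zero]
        · rw [YY_succ s t x (by omega : a < m), YY_succ s t x' (by omega : a < m)]
          apply he
          simp [Fin.ext_iff]
      have h1 := h x hx
      have h2 := h x' hx'
      rw [YY_succ s t _ ham] at h1 h2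
      funext i
      by_cases hi : i = ⟨a, ham⟩
      · rw [hi, h1, h2, hY]
      · exact he i (by simpa using hi))
    simpa using this
  · have hae : a = m := le_antisymm ha ham
    subst hae
    have := card_le_of_det V S {(⟨a - 1, by omega⟩ : Fin a)} hV (by
      intro x hx x' hx' he
      have h1 := h x hx
      have h2 := h x' hx'
      obtain ⟨b, rfl⟩ : ∃ b, a = b + 1 := ⟨a - 1, by omega⟩
      rw [YY_last, YY_succ s t _ (by omega : b < b + 1)] at h1 h2
      have h3 : x ⟨b, by omega⟩ = x' ⟨b, by omega⟩ := by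
        rw [h1] at h2
        exact mul_right_cancel h2
      funext i
      by_cases hi : i = ⟨b + 1 - 1, by omega⟩
      · rw [hi]
        exact h3
      · exact he i (by simpa using hi))
    simpa using this

/-- two vertices -/
lemma card_vertex_vertex {m : ℕ} (V : Finset G) (S : Finset (Fin m → G))
    (hV : ∀ x ∈ S, ∀ j, x j ∈ V) (j j' : Fin m) (hj : j ≠ j') (v v' : G)
    (h : ∀ x ∈ S, x j = v) (h' : ∀ x ∈ S, x j' = v') : S.card ≤ V.card ^ (m - 2) := by
  have := card_le_of_det V S {j, j'} hV (by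
    intro x hx x' hx' he
    funext i
    by_cases hi : i = j
    · subst hi
      rw [h x hx, h x' hx']
    · by_cases hi' : i = j'
      · subst hi'
        rw [h' x hx, h' x' hx']
      · exact he i (by simp [hi, hi']))
  rwa [Finset.card_pair hj] at this

/-- a vertex and an arc -/
lemma card_vertex_arc {m : ℕ} (V : Finset G) (S : Finset (Fin m → G))
    (hV : ∀ x ∈ S, ∀ j, x j ∈ V) (s t c v : G) (a : ℕ) (ha : a ≤ m) (j : Fin m)
    (hex : ¬ (a = 0 ∧ (j : ℕ) = 0)) (hex' : ¬ (a = m ∧ (j : ℕ) + 1 = m))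
    (hj : ∀ x ∈ S, x j = v)
    (h : ∀ x ∈ S, YY s t x (a + 1) = YY s t x a * c) : S.card ≤ V.card ^ (m - 2) := by
  have hjm := j.2
  rcases Nat.lt_or_ge a m with ham | ham
  · by_cases haj : a = (j : ℕ)
    · -- arc leaving towards `x_j`
      obtain ⟨b, hb⟩ : ∃ b, a = b + 1 := ⟨a - 1, by omega⟩
      have hbm : b < m := by omega
      have hne : j ≠ (⟨b, hbm⟩ : Fin m) := by
        intro he
        have := congrArg Fin.val he
        simp at this
        omega
      have := card_le_of_det V S {j, (⟨b, hbm⟩ : Fin m)} hV (by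
        intro x hx x' hx' he
        have h1 := h x hx
        have h2 := h x' hx'
        have e1 := hj x hx
        have e2 := hj x' hx'
        have hja : (⟨a, ham⟩ : Fin m) = j := by
          apply Fin.ext
          exact haj
        rw [YY_succ s t _ ham, hja] at h1 h2
        rw [e1] at h1
        rw [e2] at h2
        rw [hb, YY_succ s t _ hbm] at h1 h2
        have h3 : x ⟨b, hbm⟩ = x' ⟨b, hbm⟩ := by
          rw [h1] at h2
          exact mul_right_cancel h2
        funext i
        by_cases hi : i = j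
        · subst hi
          rw [e1, e2]
        · by_cases hi' : i = ⟨b, hbm⟩
          · rw [hi', h3]
          · exact he i (by simp [hi, hi']))
      rwa [Finset.card_pair hne] at this
    · have hne : j ≠ (⟨a, ham⟩ : Fin m) := by
        intro he
        have := congrArg Fin.val he
        simp at this
        omega
      have := card_le_of_det V S {j, (⟨a, ham⟩ : Fin m)} hV (by
        intro x hx x' hx' he
        have h1 := h x hx
        have h2 := h x' hx'
        have e1 := hj x hx
        have e2 := hj x' hx'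
        have hY : YY s t x a = YY s t x' a := by
          rcases a with _ | a
          · rw [YY_zero, YY_zero]
          · rw [YY_succ s t x (by omega : a < m), YY_succ s t x' (by omega : a < m)]
            by_cases hja : (⟨a, by omega⟩ : Fin m) = j
            · rw [hja, e1, e2]
            · apply he
              simp only [mem_insert, mem_singleton, not_or]
              refine ⟨hja, ?_⟩
              simp [Fin.ext_iff]
        rw [YY_succ s t _ ham] at h1 h2
        funext i
        by_cases hi : i = j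
        · subst hi
          rw [e1, e2]
        · by_cases hi' : i = ⟨a, ham⟩
          · rw [hi', h1, h2, hY]
          · exact he i (by simp [hi, hi']))
      rwa [Finset.card_pair hne] at this
  · have hae : a = m := le_antisymm ha ham
    subst hae
    obtain ⟨b, rfl⟩ : ∃ b, a = b + 1 := ⟨a - 1, by omega⟩
    have hne : j ≠ (⟨b, by omega⟩ : Fin (b + 1)) := by
      intro he
      have := congrArg Fin.val he
      simp at this
      omega
    have := card_le_of_det V S {j, (⟨b, by omega⟩ : Fin (b + 1))} hV (by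
      intro x hx x' hx' he
      have h1 := h x hx
      have h2 := h x' hx'
      have e1 := hj x hx
      have e2 := hj x' hx'
      rw [YY_last, YY_succ s t _ (by omega : b < b + 1)] at h1 h2
      have h3 : x ⟨b, by omega⟩ = x' ⟨b, by omega⟩ := by
        rw [h1] at h2
        exact mul_right_cancel h2
      funext i
      by_cases hi : i = j
      · subst hi
        rw [e1, e2]
      · by_cases hi' : i = ⟨b, by omega⟩
        · rw [hi', h3]
        · exact he i (by simp [hi, hi']))
    rwa [Finset.card_pair hne] at this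

/-- two arcs -/
lemma card_arc_arc {m : ℕ} (hm : 2 ≤ m) (V : Finset G) (S : Finset (Fin m → G))
    (hV : ∀ x ∈ S, ∀ j, x j ∈ V) (s t c c' : G) (a b : ℕ) (hab : a < b) (hb : b ≤ m)
    (h : ∀ x ∈ S, YY s t x (a + 1) = YY s t x a * c)
    (h' : ∀ x ∈ S, YY s t x (b + 1) = YY s t x b * c') : S.card ≤ V.card ^ (m - 2) := by
  have ham : a < m := by omega
  rcases Nat.lt_or_ge b m with hbm | hbm
  · have hne : (⟨a, ham⟩ : Fin m) ≠ ⟨b, hbm⟩ := by
      intro he
      have := congrArg Fin.val he
      simp at this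
      omega
    have := card_le_of_det V S {(⟨a, ham⟩ : Fin m), ⟨b, hbm⟩} hV (by
      intro x hx x' hx' he
      have h1 := h x hx
      have h2 := h x' hx'
      have h3 := h' x hx
      have h4 := h' x' hx'
      have hY : YY s t x a = YY s t x' a := by
        rcases a with _ | a
        · rw [YY_zero, YY_zero]
        · rw [YY_succ s t x (by omega : a < m), YY_succ s t x' (by omega : a < m)]
          apply he
          simp only [mem_insert, mem_singleton, not_or, Fin.mk.injEq]
          omega
      have hY1 : YY s t x (a + 1) = YY s t x' (a + 1) := by rw [h1, h2, hY]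
      have hYb : YY s t x b = YY s t x' b := by
        rcases b with _ | b
        · omega
        · by_cases hba : b = a
          · rw [hba, hY1]
          · rw [YY_succ s t x (by omega : b < m), YY_succ s t x' (by omega : b < m)]
            apply he
            simp only [mem_insert, mem_singleton, not_or, Fin.mk.injEq]
            omega
      have hYb1 : YY s t x (b + 1) = YY s t x' (b + 1) := by rw [h3, h4, hYb]
      rw [YY_succ s t _ ham, YY_succ s t _ ham] at hY1
      rw [YY_succ s t _ hbm, YY_succ s t _ hbm] at hYb1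
      funext i
      by_cases hi : i = ⟨a, ham⟩
      · rw [hi, hY1]
      · by_cases hi' : i = ⟨b, hbm⟩
        · rw [hi', hYb1]
        · exact he i (by simp [hi, hi']))
    rwa [Finset.card_pair hne] at this
  · have hbe : b = m := le_antisymm hb hbm
    subst hbe
    obtain ⟨d, rfl⟩ : ∃ d, b = d + 2 := ⟨b - 2, by omega⟩
    by_cases had : a = d + 1
    · subst had
      have hne : (⟨d + 1, by omega⟩ : Fin (d + 2)) ≠ ⟨d, by omega⟩ := by
        intro he
        have := congrArg Fin.val he
        simp at this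
      have := card_le_of_det V S {(⟨d + 1, by omega⟩ : Fin (d + 2)), ⟨d, by omega⟩} hV (by
        intro x hx x' hx' he
        have h1 := h x hx
        have h2 := h x' hx'
        have h3 := h' x hx
        have h4 := h' x' hx'
        rw [YY_last] at h3 h4
        have hY2 : YY s t x (d + 2) = YY s t x' (d + 2) := mul_right_cancel (h3.symm.trans h4)
        have hY1 : YY s t x (d + 1) = YY s t x' (d + 1) := by
          have h1' : YY s t x (d + 2) = YY s t x (d + 1) * c := h1
          have h2' : YY s t x' (d + 2) = YY s t x' (d + 1) * c := h2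
          rw [h1', h2'] at hY2
          exact mul_right_cancel hY2
        rw [YY_succ s t _ (by omega : d + 1 < d + 2), YY_succ s t _ (by omega : d + 1 < d + 2)] at hY2
        rw [YY_succ s t _ (by omega : d < d + 2), YY_succ s t _ (by omega : d < d + 2)] at hY1
        funext i
        by_cases hi : i = ⟨d + 1, by omega⟩
        · rw [hi, hY2]
        · by_cases hi' : i = ⟨d, by omega⟩
          · rw [hi', hY1]
          · exact he i (by simp [hi, hi']))
      rwa [Finset.card_pair hne] at this
    · have hne : (⟨a, ham⟩ : Fin (d + 2)) ≠ ⟨d + 1, by omega⟩ := by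
        intro he
        have := congrArg Fin.val he
        simp at this
        omega
      have := card_le_of_det V S {(⟨a, ham⟩ : Fin (d + 2)), ⟨d + 1, by omega⟩} hV (by
        intro x hx x' hx' he
        have h1 := h x hx
        have h2 := h x' hx'
        have h3 := h' x hx
        have h4 := h' x' hx'
        rw [YY_last] at h3 h4
        have hY2 : YY s t x (d + 2) = YY s t x' (d + 2) := mul_right_cancel (h3.symm.trans h4)
        have hY : YY s t x a = YY s t x' a := by
          rcases a with _ | a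
          · rw [YY_zero, YY_zero]
          · rw [YY_succ s t x (by omega : a < d + 2), YY_succ s t x' (by omega : a < d + 2)]
            apply he
            simp only [mem_insert, mem_singleton, not_or, Fin.mk.injEq]
            omega
        have hY1 : YY s t x (a + 1) = YY s t x' (a + 1) := by rw [h1, h2, hY]
        rw [YY_succ s t _ ham, YY_succ s t _ ham] at hY1
        rw [YY_succ s t _ (by omega : d + 1 < d + 2), YY_succ s t _ (by omega : d + 1 < d + 2)] at hY2
        funext i
        by_cases hi : i = ⟨a, ham⟩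
        · rw [hi, hY1]
        · by_cases hi' : i = ⟨d + 1, by omega⟩
          · rw [hi', hY2]
          · exact he i (by simp [hi, hi']))
      rwa [Finset.card_pair hne] at this

end tuples

section main
variable {G : Type} [Group G] [Fintype G] [DecidableEq G]

lemma mem_pathsF {V C : Finset G} {i : Idx G} {x : Fin (i.2.2 - 1) → G} (h : x ∈ pathsF V C i) :
    ∀ j, x j ∈ V := by
  unfold pathsF at h
  rw [mem_filter] at h
  exact h.2.2.1

lemma card_vertex_set (V C : Finset G) (i : Idx G) (v : G) :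
    ((pathsF V C i).filter fun x => ∃ j, x j = v).card ≤
      (i.2.2 - 1) * V.card ^ (i.2.2 - 1 - 1) := by
  have h1 : ((pathsF V C i).filter fun x => ∃ j, x j = v) ⊆
      (univ : Finset (Fin (i.2.2 - 1))).biUnion fun j => (pathsF V C i).filter fun x => x j = v := by
    intro x hx
    rw [mem_filter] at hx
    obtain ⟨hx, j, hj⟩ := hx
    simp only [mem_biUnion, mem_univ, true_and, mem_filter]
    exact ⟨j, hx, hj⟩
  refine le_trans (card_le_card h1) (le_trans card_biUnion_le ?_)
  refine le_trans (Finset.sum_le_sum (g := fun _ => V.card ^ (i.2.2 - 1 - 1)) ?_) ?_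
  · intro j _
    apply card_vertex V _ _ j v
    · intro x hx
      rw [mem_filter] at hx
      exact hx.2
    · intro x hx
      exact mem_pathsF (mem_filter.mp hx).1
  · simp

lemma card_colour_set (V C : Finset G) (i : Idx G) (c : G) (hm : 1 ≤ i.2.2 - 1) :
    ((pathsF V C i).filter fun x => c ∈ pcols i.1 (List.ofFn x) i.2.1).card ≤
      (i.2.2 - 1 + 1) * V.card ^ (i.2.2 - 1 - 1) := by
  have h1 : ((pathsF V C i).filter fun x => c ∈ pcols i.1 (List.ofFn x) i.2.1) ⊆
      (range (i.2.2 - 1 + 1)).biUnion fun a => (pathsF V C i).filter fun x =>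
        YY i.1 i.2.1 x (a + 1) = YY i.1 i.2.1 x a * c := by
    intro x hx
    rw [mem_filter] at hx
    obtain ⟨hx, hc⟩ := hx
    obtain ⟨a, ha, he⟩ := mem_pcols hc
    simp only [mem_biUnion, mem_range, mem_filter]
    exact ⟨a, by omega, hx, he⟩
  refine le_trans (card_le_card h1) (le_trans card_biUnion_le ?_)
  refine le_trans (Finset.sum_le_sum (g := fun _ => V.card ^ (i.2.2 - 1 - 1)) ?_) ?_
  · intro a ha
    rw [mem_range] at ha
    apply card_arc hm V _ _ i.1 i.2.1 c a (by omega)
    · intro x hx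
      rw [mem_filter] at hx
      exact hx.2
    · intro x hx
      exact mem_pathsF (mem_filter.mp hx).1
  · simp

lemma card_vv_set (V C : Finset G) (i : Idx G) (v v' : G) (hv : v ≠ v') :
    ((pathsF V C i).filter fun x => (∃ j, x j = v) ∧ ∃ j, x j = v').card ≤
      (i.2.2 - 1) * (i.2.2 - 1) * V.card ^ (i.2.2 - 1 - 2) := by
  have h1 : ((pathsF V C i).filter fun x => (∃ j, x j = v) ∧ ∃ j, x j = v') ⊆
      (univ : Finset (Fin (i.2.2 - 1) × Fin (i.2.2 - 1))).biUnion fun p =>
        (pathsF V C i).filter fun x => x p.1 = v ∧ x p.2 = v' := by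
    intro x hx
    rw [mem_filter] at hx
    obtain ⟨hx, ⟨j, hj⟩, ⟨j', hj'⟩⟩ := hx
    simp only [mem_biUnion, mem_univ, true_and, mem_filter]
    exact ⟨(j, j'), hx, hj, hj'⟩
  refine le_trans (card_le_card h1) (le_trans card_biUnion_le ?_)
  refine le_trans (Finset.sum_le_sum (g := fun _ => V.card ^ (i.2.2 - 1 - 2)) ?_) ?_
  · rintro ⟨j, j'⟩ _
    by_cases hj : j = j'
    · subst hj
      have : ((pathsF V C i).filter fun x => x (j, j).1 = v ∧ x (j, j).2 = v') = ∅ := by
        apply filter_false_of_mem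
        rintro x _ ⟨h1, h2⟩
        exact hv (h1.symm.trans h2)
      rw [this]
      simp
    · apply card_vertex_vertex V _ _ j j' hj v v'
      · intro x hx
        exact (mem_filter.mp hx).2.1
      · intro x hx
        exact (mem_filter.mp hx).2.2
      · intro x hx
        exact mem_pathsF (mem_filter.mp hx).1
  · simp

lemma card_cc_set (V C : Finset G) (i : Idx G) (c c' : G) (hc : c ≠ c') (hm : 2 ≤ i.2.2 - 1) :
    ((pathsF V C i).filter fun x => c ∈ pcols i.1 (List.ofFn x) i.2.1 ∧
      c' ∈ pcols i.1 (List.ofFn x) i.2.1).card ≤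
      (i.2.2 - 1 + 1) * (i.2.2 - 1 + 1) * V.card ^ (i.2.2 - 1 - 2) := by
  have h1 : ((pathsF V C i).filter fun x => c ∈ pcols i.1 (List.ofFn x) i.2.1 ∧
      c' ∈ pcols i.1 (List.ofFn x) i.2.1) ⊆
      (range (i.2.2 - 1 + 1) ×ˢ range (i.2.2 - 1 + 1)).biUnion fun p =>
        (pathsF V C i).filter fun x => YY i.1 i.2.1 x (p.1 + 1) = YY i.1 i.2.1 x p.1 * c ∧
          YY i.1 i.2.1 x (p.2 + 1) = YY i.1 i.2.1 x p.2 * c' := by
    intro x hx
    rw [mem_filter] at hx
    obtain ⟨hx, hc, hc'⟩ := hx
    obtain ⟨a, ha, he⟩ := mem_pcols hc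
    obtain ⟨b, hb, he'⟩ := mem_pcols hc'
    simp only [mem_biUnion, mem_product, mem_range, mem_filter]
    exact ⟨(a, b), ⟨by show a < _; omega, by show b < _; omega⟩, hx, he, he'⟩
  refine le_trans (card_le_card h1) (le_trans card_biUnion_le ?_)
  refine le_trans (Finset.sum_le_sum (g := fun _ => V.card ^ (i.2.2 - 1 - 2)) ?_) ?_
  · rintro ⟨a, b⟩ hab
    simp only [mem_product, mem_range] at hab
    show ((pathsF V C i).filter fun x => YY i.1 i.2.1 x (a + 1) = YY i.1 i.2.1 x a * c ∧
          YY i.1 i.2.1 x (b + 1) = YY i.1 i.2.1 x b * c').card ≤ _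
    rcases lt_trichotomy a b with h | h | h
    · apply card_arc_arc hm V _ _ i.1 i.2.1 c c' a b h (by omega)
      · intro x hx
        exact (mem_filter.mp hx).2.1
      · intro x hx
        exact (mem_filter.mp hx).2.2
      · intro x hx
        exact mem_pathsF (mem_filter.mp hx).1
    · subst h
      have : ((pathsF V C i).filter fun x => YY i.1 i.2.1 x (a + 1) = YY i.1 i.2.1 x a * c ∧
          YY i.1 i.2.1 x (a + 1) = YY i.1 i.2.1 x a * c') = ∅ := by
        apply filter_false_of_mem
        rintro x _ ⟨h1, h2⟩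
        exact hc (mul_left_cancel (h1.symm.trans h2))
      rw [this]
      simp
    · apply card_arc_arc hm V _ _ i.1 i.2.1 c' c b a h (by omega)
      · intro x hx
        exact (mem_filter.mp hx).2.2
      · intro x hx
        exact (mem_filter.mp hx).2.1
      · intro x hx
        exact mem_pathsF (mem_filter.mp hx).1
  · simp

lemma card_vc_set (V C : Finset G) (i : Idx G) (v c : G) (hm : 2 ≤ i.2.2 - 1) :
    ((pathsF V C i).filter fun x => (∃ j, x j = v) ∧ c ∈ pcols i.1 (List.ofFn x) i.2.1).card ≤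
      (i.2.2 - 1) * (i.2.2 - 1 + 1) * V.card ^ (i.2.2 - 1 - 2) +
        ((if i.1 = v * c⁻¹ then 1 else 0) + (if i.2.1 = v * c then 1 else 0)) *
          V.card ^ (i.2.2 - 1 - 1) := by
  obtain ⟨m, hmm⟩ : ∃ m, i.2.2 - 1 = m := ⟨_, rfl⟩
  have hj0 : 0 < i.2.2 - 1 := by omega
  have hjm : i.2.2 - 1 - 1 < i.2.2 - 1 := by omega
  have h1 : ((pathsF V C i).filter fun x => (∃ j, x j = v) ∧
      c ∈ pcols i.1 (List.ofFn x) i.2.1) ⊆
      (((univ : Finset (Fin (i.2.2 - 1))) ×ˢ range (i.2.2 - 1 + 1)).biUnion fun p =>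
        (pathsF V C i).filter fun x => (¬ (p.2 = 0 ∧ (p.1 : ℕ) = 0) ∧
          ¬ (p.2 = i.2.2 - 1 ∧ (p.1 : ℕ) + 1 = i.2.2 - 1)) ∧ x p.1 = v ∧
          YY i.1 i.2.1 x (p.2 + 1) = YY i.1 i.2.1 x p.2 * c) ∪
      (((pathsF V C i).filter fun x => i.1 = v * c⁻¹ ∧ x ⟨0, hj0⟩ = v) ∪
      ((pathsF V C i).filter fun x => i.2.1 = v * c ∧ x ⟨i.2.2 - 1 - 1, hjm⟩ = v)) := by
    intro x hx
    rw [mem_filter] at hx
    obtain ⟨hx, ⟨j, hj⟩, hc⟩ := hx
    obtain ⟨a, ha, he⟩ := mem_pcols hc
    simp only [mem_union, mem_biUnion, mem_product, mem_univ, true_and, mem_range, mem_filter]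
    by_cases h0 : a = 0 ∧ (j : ℕ) = 0
    · right; left
      obtain ⟨ha0, hj0'⟩ := h0
      subst ha0
      have hje : j = ⟨0, hj0⟩ := Fin.ext hj0'
      rw [YY_zero, YY_succ _ _ _ hj0, ← hje, hj] at he
      refine ⟨hx, ?_, hje ▸ hj⟩
      rw [he]
      group
    · by_cases h0' : a = i.2.2 - 1 ∧ (j : ℕ) + 1 = i.2.2 - 1
      · right; right
        obtain ⟨ha0, hj0'⟩ := h0'
        have hje : j = ⟨i.2.2 - 1 - 1, hjm⟩ := Fin.ext (by show (j : ℕ) = i.2.2 - 1 - 1; omega)
        have e1 : YY i.1 i.2.1 x (a + 1) = i.2.1 := by rw [ha0]; exact YY_last _ _ _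
        have e2 : YY i.1 i.2.1 x a = v := by
          have : a = (i.2.2 - 1 - 1) + 1 := by omega
          rw [this, YY_succ _ _ _ hjm, ← hje, hj]
        rw [e1, e2] at he
        exact ⟨hx, he, hje ▸ hj⟩
      · left
        exact ⟨(j, a), by show a < _; omega, hx, ⟨h0, h0'⟩, hj, he⟩
  refine le_trans (card_le_card h1) (le_trans (card_union_le _ _) ?_)
  apply add_le_add
  · refine le_trans card_biUnion_le ?_
    refine le_trans (Finset.sum_le_sum (g := fun _ => V.card ^ (i.2.2 - 1 - 2)) ?_) ?_
    · rintro ⟨j, a⟩ hja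
      simp only [mem_product, mem_univ, true_and, mem_range] at hja
      by_cases hex : ¬ (a = 0 ∧ (j : ℕ) = 0) ∧ ¬ (a = i.2.2 - 1 ∧ (j : ℕ) + 1 = i.2.2 - 1)
      · apply card_vertex_arc V _ _ i.1 i.2.1 c v a (by omega) j hex.1 hex.2
        · intro x hx
          exact (mem_filter.mp hx).2.2.1
        · intro x hx
          exact (mem_filter.mp hx).2.2.2
        · intro x hx
          exact mem_pathsF (mem_filter.mp hx).1
      · have : ((pathsF V C i).filter fun x => (¬ ((j, a).2 = 0 ∧ ((j, a).1 : ℕ) = 0) ∧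
          ¬ ((j, a).2 = i.2.2 - 1 ∧ ((j, a).1 : ℕ) + 1 = i.2.2 - 1)) ∧ x (j, a).1 = v ∧
          YY i.1 i.2.1 x ((j, a).2 + 1) = YY i.1 i.2.1 x (j, a).2 * c) = ∅ := by
          apply filter_false_of_mem
          rintro x _ ⟨h1, h2⟩
          exact hex h1
        rw [this]
        simp
    · simp
  · refine le_trans (card_union_le _ _) ?_
    rw [add_mul]
    apply add_le_add
    · by_cases h : i.1 = v * c⁻¹
      · rw [if_pos h, one_mul]
        apply card_vertex V _ _ ⟨0, hj0⟩ v
        · intro x hx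
          exact (mem_filter.mp hx).2.2
        · intro x hx
          exact mem_pathsF (mem_filter.mp hx).1
      · rw [if_neg h, zero_mul, Nat.le_zero, card_eq_zero]
        apply filter_false_of_mem
        rintro x _ ⟨h1, h2⟩
        exact h h1
    · by_cases h : i.2.1 = v * c
      · rw [if_pos h, one_mul]
        apply card_vertex V _ _ ⟨i.2.2 - 1 - 1, hjm⟩ v
        · intro x hx
          exact (mem_filter.mp hx).2.2
        · intro x hx
          exact mem_pathsF (mem_filter.mp hx).1
      · rw [if_neg h, zero_mul, Nat.le_zero, card_eq_zero]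
        apply filter_false_of_mem
        rintro x _ ⟨h1, h2⟩
        exact h h1

/-- numerics: ratios -/
lemma ratio1 {S P q n m K : ℕ} (hq : 0 < q) (hn : n ≤ 6 * q) (hn0 : 0 < n) (hm : 1 ≤ m)
    (hP : (q : ℝ) ^ m ≤ 2 * P) (hS : S ≤ K * q ^ (m - 1)) :
    (S : ℝ) / P ≤ (12 * K : ℝ) / n := by
  have hq' : (0 : ℝ) < q := by exact_mod_cast hq
  have hn' : (0 : ℝ) < n := by exact_mod_cast hn0
  have hnq : (n : ℝ) ≤ 6 * q := by exact_mod_cast hn
  have hP0 : (0 : ℝ) < P := by
    have : (0 : ℝ) < (q : ℝ) ^ m := by positivity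
    linarith
  have hS' : (S : ℝ) ≤ K * (q : ℝ) ^ (m - 1) := by exact_mod_cast hS
  rw [div_le_div_iff₀ hP0 hn']
  have hpow : (q : ℝ) ^ m = q ^ (m - 1) * q := by
    rw [← pow_succ]
    congr 1
    omega
  calc (S : ℝ) * n ≤ (K * (q : ℝ) ^ (m - 1)) * (6 * q) := by
        apply mul_le_mul hS' hnq hn'.le (by positivity)
    _ = 6 * K * (q : ℝ) ^ m := by rw [hpow]; ring
    _ ≤ 6 * K * (2 * P) := by
        apply mul_le_mul_of_nonneg_left hP (by positivity)
    _ = 12 * K * P := by ring

lemma ratio2 {S P q n m K δ : ℕ} (hq : 0 < q) (hn : n ≤ 6 * q) (hn0 : 0 < n) (hm : 2 ≤ m)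
    (hP : (q : ℝ) ^ m ≤ 2 * P) (hS : S ≤ K * q ^ (m - 2) + δ * q ^ (m - 1)) :
    (S : ℝ) / P ≤ (72 * K : ℝ) / n ^ 2 + (12 * δ : ℝ) / n := by
  have hq' : (0 : ℝ) < q := by exact_mod_cast hq
  have hn' : (0 : ℝ) < n := by exact_mod_cast hn0
  have hnq : (n : ℝ) ≤ 6 * q := by exact_mod_cast hn
  have hP0 : (0 : ℝ) < P := by
    have : (0 : ℝ) < (q : ℝ) ^ m := by positivity
    linarith
  have hS' : (S : ℝ) ≤ K * (q : ℝ) ^ (m - 2) + δ * (q : ℝ) ^ (m - 1) := by exact_mod_cast hS
  have hpow : (q : ℝ) ^ m = q ^ (m - 1) * q := by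
    rw [← pow_succ]
    congr 1
    omega
  have hpow2 : (q : ℝ) ^ m = q ^ (m - 2) * q ^ 2 := by
    rw [← pow_add]
    congr 1
    omega
  have e : (72 * K : ℝ) / n ^ 2 + (12 * δ : ℝ) / n = (72 * K + 12 * δ * n) / n ^ 2 := by
    field_simp
  rw [e, div_le_div_iff₀ hP0 (by positivity)]
  have h1 : (n : ℝ) ^ 2 ≤ 36 * q ^ 2 := by nlinarith
  calc (S : ℝ) * n ^ 2 ≤ (K * (q : ℝ) ^ (m - 2) + δ * (q : ℝ) ^ (m - 1)) * n ^ 2 := by
        apply mul_le_mul_of_nonneg_right hS' (by positivity)
    _ = K * ((q : ℝ) ^ (m - 2) * n ^ 2) + δ * n * ((q : ℝ) ^ (m - 1) * n) := by ring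
    _ ≤ K * ((q : ℝ) ^ (m - 2) * (36 * q ^ 2)) + δ * n * ((q : ℝ) ^ (m - 1) * (6 * q)) := by
        apply add_le_add
        · apply mul_le_mul_of_nonneg_left _ (by positivity)
          exact mul_le_mul_of_nonneg_left h1 (by positivity)
        · apply mul_le_mul_of_nonneg_left _ (by positivity)
          exact mul_le_mul_of_nonneg_left hnq (by positivity)
    _ = (36 * K + 6 * δ * n) * (q : ℝ) ^ m := by
        linear_combination (-36 * (K : ℝ)) * hpow2 + (-6 * (δ : ℝ) * n) * hpow
    _ ≤ (36 * K + 6 * δ * n) * (2 * P) := by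
        apply mul_le_mul_of_nonneg_left hP (by positivity)
    _ = (72 * K + 12 * δ * n) * P := by ring

lemma sum_ratio2 {I : Finset (Idx G)} {n : ℕ} (hn0 : 0 < n) (hI : I.card ≤ n) (f : Idx G → ℝ)
    (δ : Idx G → ℕ) (K D : ℕ) (hδ : ∑ i ∈ I, δ i ≤ D)
    (h : ∀ i ∈ I, f i ≤ (72 * K : ℝ) / n ^ 2 + (12 * δ i : ℝ) / n) :
    ∑ i ∈ I, f i ≤ (72 * K + 12 * D : ℝ) / n := by
  have hn' : (0 : ℝ) < n := by exact_mod_cast hn0
  refine le_trans (Finset.sum_le_sum h) ?_
  rw [Finset.sum_add_distrib, Finset.sum_const, nsmul_eq_mul]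
  have h1 : (I.card : ℝ) * ((72 * K : ℝ) / n ^ 2) ≤ (72 * K : ℝ) / n := by
    rw [mul_div_assoc', div_le_div_iff₀ (by positivity) hn']
    have : (I.card : ℝ) ≤ n := by exact_mod_cast hI
    nlinarith [mul_le_mul_of_nonneg_right this (by positivity : (0 : ℝ) ≤ 72 * K * n)]
  have h2 : ∑ i ∈ I, (12 * δ i : ℝ) / n ≤ (12 * D : ℝ) / n := by
    rw [← Finset.sum_div, ← Finset.mul_sum]
    apply div_le_div_of_nonneg_right _ hn'.le
    have : ((∑ i ∈ I, δ i : ℕ) : ℝ) ≤ D := by exact_mod_cast hδ
    push_cast at this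
    linarith
  calc _ ≤ (72 * K : ℝ) / n + (12 * D : ℝ) / n := add_le_add h1 h2
    _ = _ := by rw [← add_div]

end main

theorem stmt_COD : Stmt_COD := by
  refine ⟨72 * 25 + 12 * 5, ?_⟩
  intro G _ _ _ I V C hlen hsrc htgt hcard hP
  have hn0 : 0 < Fintype.card G := Fintype.card_pos
  have hcard' : Fintype.card G ≤ 6 * V.card := by exact_mod_cast hcard
  have hq : 0 < V.card := by omega
  have hn' : (0 : ℝ) < Fintype.card G := by exact_mod_cast hn0
  have hI : I.card ≤ Fintype.card G := by
    rw [← Finset.card_univ]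
    exact Finset.card_le_card_of_injOn (fun i : Idx G => i.1) (fun _ _ => Finset.mem_coe.mpr (mem_univ _)) hsrc
  have hm2 : ∀ i ∈ I, 2 ≤ i.2.2 - 1 := by
    intro i hi
    rcases hlen i hi with h | h | h <;> omega
  have hm4 : ∀ i ∈ I, i.2.2 - 1 ≤ 4 := by
    intro i hi
    rcases hlen i hi with h | h | h <;> omega
  have hone : ∀ (f : Idx G → G) (w : G), Set.InjOn f (I : Set (Idx G)) →
      ∑ i ∈ I, (if f i = w then 1 else 0) ≤ 1 := by
    intro f w hf
    rw [← Finset.card_filter]
    apply Finset.card_le_one.mpr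
    intro a ha b hb
    rw [mem_filter] at ha hb
    exact hf ha.1 hb.1 (ha.2.trans hb.2.symm)
  refine ⟨?_, ?_, ?_, ?_, ?_⟩
  · intro i hi v
    have h := card_vertex_set V C i v
    have h' : ((pathsF V C i).filter fun x => ∃ j, x j = v).card ≤ 4 * V.card ^ (i.2.2 - 1 - 1) :=
      le_trans h (Nat.mul_le_mul_right _ (hm4 i hi))
    refine le_trans (ratio1 hq hcard' hn0 (le_trans one_le_two (hm2 i hi)) (hP i hi) h') ?_
    apply div_le_div_of_nonneg_right _ hn'.le
    norm_num
  · intro i hi c
    have h := card_colour_set V C i c (le_trans one_le_two (hm2 i hi))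
    have h' : ((pathsF V C i).filter fun x => c ∈ pcols i.1 (List.ofFn x) i.2.1).card ≤
        5 * V.card ^ (i.2.2 - 1 - 1) :=
      le_trans h (Nat.mul_le_mul_right _ (by have := hm4 i hi; omega))
    refine le_trans (ratio1 hq hcard' hn0 (le_trans one_le_two (hm2 i hi)) (hP i hi) h') ?_
    apply div_le_div_of_nonneg_right _ hn'.le
    norm_num
  · intro v v' hv
    refine le_trans (sum_ratio2 hn0 hI _ (fun _ => 0) 25 0 (by simp) ?_) ?_
    · intro i hi
      apply ratio2 hq hcard' hn0 (hm2 i hi) (hP i hi)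
      refine le_trans (card_vv_set V C i v v' hv) ?_
      rw [Nat.zero_mul, Nat.add_zero]
      apply Nat.mul_le_mul_right
      have := hm4 i hi
      calc (i.2.2 - 1) * (i.2.2 - 1) ≤ 4 * 4 := Nat.mul_le_mul this this
        _ ≤ 25 := by norm_num
    · apply div_le_div_of_nonneg_right _ hn'.le
      norm_num
  · intro v c
    refine le_trans (sum_ratio2 hn0 hI _
      (fun i => (if i.1 = v * c⁻¹ then 1 else 0) + (if i.2.1 = v * c then 1 else 0)) 25 2 ?_ ?_) ?_
    · rw [Finset.sum_add_distrib]
      have h1 := hone (fun i : Idx G => i.1) (v * c⁻¹) hsrc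
      have h2 := hone (fun i : Idx G => i.2.1) (v * c) htgt
      exact add_le_add h1 h2
    · intro i hi
      apply ratio2 hq hcard' hn0 (hm2 i hi) (hP i hi)
      refine le_trans (card_vc_set V C i v c (hm2 i hi)) ?_
      apply Nat.add_le_add_right
      apply Nat.mul_le_mul_right
      have := hm4 i hi
      calc (i.2.2 - 1) * (i.2.2 - 1 + 1) ≤ 4 * 5 := Nat.mul_le_mul this (by omega)
        _ ≤ 25 := by norm_num
    · apply div_le_div_of_nonneg_right _ hn'.le
      norm_num
  · intro c c' hc
    refine le_trans (sum_ratio2 hn0 hI _ (fun _ => 0) 25 0 (by simp) ?_) ?_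
    · intro i hi
      apply ratio2 hq hcard' hn0 (hm2 i hi) (hP i hi)
      refine le_trans (card_cc_set V C i c c' hc (hm2 i hi)) ?_
      rw [Nat.zero_mul, Nat.add_zero]
      apply Nat.mul_le_mul_right
      have := hm4 i hi
      calc (i.2.2 - 1 + 1) * (i.2.2 - 1 + 1) ≤ 5 * 5 := Nat.mul_le_mul (by omega) (by omega)
        _ ≤ 25 := by norm_num
    · apply div_le_div_of_nonneg_right _ hn'.le
      norm_num

end Pool.OM.H70

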